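import Pool.Agent.V11300.DR.Gal

/-!
# Exchangeable planes are equivalent
-/

set_option linter.unusedSectionVars false

namespace Pool.Agent.V11300.DR

open Finset Submodule Module

variable {F V ι : Type*} [Field F] [AddCommGroup V] [Module F V] [DecidableEq ι]
  [FiniteDimensional F V] [Fintype ι] {L : ι → Submodule F V} {m : ℕ}

/-- admissible sets -/
structure Adm (L : ι → Submodule F V) (m : ℕ) (f g : ι) (X : Finset ι) : Prop where
  hf : f ∈ X
  hg : g ∈ X
  card : X.card = m + 1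
  i1 : Ind L (X.erase f)
  i2 : Ind L (X.erase g)
  hx : ∃ x ∈ L f, x ∉ S L (X.erase f)

lemma lemA (hs : Setup L m) {f g : ι} (hfg : f ≠ g) {X : Finset ι} (hX : Adm L m f g X) {y z : V}
    (hy : y ∈ L f) (hz : z ∈ L g) : Eqv L m y z := by
  classical
  by_contra hcon
  obtain ⟨P0, hP0, hind0⟩ := not_eqv hcon
  obtain ⟨⟨M, P⟩, ⟨hM, hP, hind⟩, hmax⟩ := exists_max
    (fun p : Finset ι × Finset ι => Adm L m f g p.1 ∧ MM L m p.2 ∧
      ∀ a b : F, a • y + b • z ∈ S L p.2 → a = 0 ∧ b = 0) ⟨(X, P0), hX, hP0, hind0⟩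
    (fun p => (p.2 ∩ p.1).card)
  simp only at hM hP hind hmax
  obtain ⟨hd, hfr⟩ := pair_disjoint hind
  have hyP : y ∉ S L P := fun h1 => one_ne_zero (hind 1 0 (by simpa using h1)).1
  have hzP : z ∉ S L P := fun h1 => one_ne_zero (hind 0 1 (by simpa using h1)).2
  have hfP : f ∉ P := fun h1 => hyP (le_S h1 hy)
  have hgP : g ∉ P := fun h1 => hzP (le_S h1 hz)
  have hyz : ∀ a b : F, a • y + b • z = 0 → a = 0 ∧ b = 0 := fun a b h =>
    hind a b (by rw [h]; exact (S L P).zero_mem)
  have hle : S L M ≤ S L P ⊔ span F {y, z} := by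
    refine S_le fun h hh => ?_
    refine lemG hs hP hd (fun N' hN' hdis => ?_) hh ?_
    · exact hmax (M, N') ⟨hM, hN', fun a b hab => hyz a b
        (Submodule.disjoint_def.1 hdis _ (Submodule.mem_span_pair.2 ⟨a, b, rfl⟩) hab)⟩
    · by_cases hhf : h = f
      · refine hM.i2.mono (Finset.insert_subset ?_ ?_)
        · subst hhf; exact Finset.mem_erase.2 ⟨hfg, hM.hf⟩
        · intro e he
          obtain ⟨he1, he2⟩ := Finset.mem_inter.1 he
          exact Finset.mem_erase.2 ⟨fun h => hgP (h ▸ he1), he2⟩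
      · refine hM.i1.mono (Finset.insert_subset (Finset.mem_erase.2 ⟨hhf, hh⟩) ?_)
        intro e he
        obtain ⟨he1, he2⟩ := Finset.mem_inter.1 he
        exact Finset.mem_erase.2 ⟨fun h => hfP (h ▸ he1), he2⟩
  set M1 := M.erase f with hM1
  have hM1M : MM L m M1 := ⟨hM.i1, by rw [hM1, Finset.card_erase_of_mem hM.hf, hM.card]; rfl⟩
  have hfM1 : f ∉ M1 := Finset.notMem_erase _ _
  have hSM : S L M = L f ⊔ S L M1 := by rw [hM1, ← S_insert, Finset.insert_erase hM.hf]
  obtain ⟨u, hu, hu0, huS⟩ := exists_inter hs hM1M f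
  obtain ⟨x, hx, hxS⟩ := hM.hx
  -- dimension of S L M
  have hfrM : finrank F (S L M) ≤ 2 * m + 1 := by
    have h3 := Submodule.finrank_sup_add_finrank_inf_eq (L f) (S L M1)
    have h4 : 0 < finrank F (L f ⊓ S L M1 : Submodule F V) := by
      rw [Module.finrank_pos_iff_exists_ne_zero]
      refine ⟨⟨u, hu, huS⟩, fun h0 => hu0 ?_⟩
      exact congrArg Subtype.val h0
    rw [← hSM, hs.two, finrank_S hs.two hM1M.1, hM1M.2] at h3
    omega
  obtain ⟨p, hp, xp, hxp, hxpS⟩ : ∃ p ∈ P, ∃ xp ∈ L p, xp ∉ S L M := by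
    by_contra hcon
    push Not at hcon
    have hle2 : S L P ⊔ span F {y, z} ≤ S L M := by
      refine sup_le (S_le fun p hp x hx => hcon p hp x hx) ?_
      rw [Submodule.span_le]
      rintro x (rfl | rfl)
      · exact le_S hM.hf hy
      · exact le_S hM.hg hz
    have h3 := Submodule.finrank_mono hle2
    rw [finrank_sup_disjoint hd.symm, finrank_S hs.two hP.1, hfr, hP.2] at h3
    omega
  have hpM : p ∉ M := fun h => hxpS (le_S h hxp)
  have hM1leM : S L M1 ≤ S L M := S_mono (Finset.erase_subset _ _)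
  have hpM1 : p ∉ M1 := fun h => hpM (Finset.mem_of_mem_erase h)
  have hxpS1 : xp ∉ S L M1 := fun h => hxpS (hM1leM h)
  obtain ⟨h, hh, hhD, hhi⟩ := EX hs.two hM1M.1 hpM1 hxp hxpS1 (not_ind_insert hs hM1M hpM1)
    (D := M1 ∩ P) Finset.inter_subset_left
    (hP.1.mono (Finset.insert_subset hp Finset.inter_subset_right))
  have hhP : h ∉ P := fun h1 => hhD (Finset.mem_inter.2 ⟨hh, h1⟩)
  have hindM1 : ∀ a b : F, a • x + b • xp ∈ S L M1 → a = 0 ∧ b = 0 := by
    intro a b hab
    have hb : b = 0 := by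
      by_contra hb
      apply hxpS
      have e1 : xp = b⁻¹ • ((a • x + b • xp) - a • x) := by
        rw [add_sub_cancel_left, smul_smul, inv_mul_cancel₀ hb, one_smul]
      rw [e1]
      exact (S L M).smul_mem _ ((S L M).sub_mem (hM1leM hab) ((S L M).smul_mem _ (le_S hM.hf hx)))
    subst hb
    rw [zero_smul, add_zero] at hab
    refine ⟨?_, rfl⟩
    by_contra ha
    apply hxS
    have := (S L M1).smul_mem a⁻¹ hab
    rwa [smul_smul, inv_mul_cancel₀ ha, one_smul] at this
  have hgM1 : g ∈ M1 := Finset.mem_erase.2 ⟨hfg.symm, hM.hg⟩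
  have hins_g : insert f (M1.erase g) = M.erase g := by
    ext e
    simp only [hM1, Finset.mem_insert, Finset.mem_erase]
    by_cases hef : e = f
    · subst hef; simp [hfg, hM.hf]
    · simp [hef]
  have hfg_ind : Ind L (insert f (M1.erase g)) := by rw [hins_g]; exact hM.i2
  have hhg : h ≠ g := by
    rintro rfl
    exact star hs hM1M hx hxp hindM1 hgM1 hfg_ind hhi
  have hnf : ¬ Ind L (insert f (M1.erase h)) := fun hi => star hs hM1M hx hxp hindM1 hh hi hhi
  obtain ⟨w, hw, hws⟩ := mem_S.1 huS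
  have hwh : w h = 0 := by
    by_contra hwh
    exact hnf (EX0 hs.two hM1M.1 hfM1 hx hxS hu hw hws hh hwh)
  have hwg : w g ≠ 0 := EX0' hfM1 hu hu0 hw hws hfg_ind
  have hhf : h ≠ f := Finset.ne_of_mem_erase hh
  have hhM : h ∈ M := Finset.mem_of_mem_erase hh
  have hpf : p ≠ f := fun h1 => hfP (h1 ▸ hp)
  have hpg : p ≠ g := fun h1 => hgP (h1 ▸ hp)
  set M2 := insert p (M1.erase h) with hM2
  have hpe : p ∉ M1.erase h := fun h1 => hpM1 (Finset.mem_of_mem_erase h1)
  have hM2M : MM L m M2 := by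
    refine ⟨hhi, ?_⟩
    rw [hM2, Finset.card_insert_of_notMem hpe, Finset.card_erase_of_mem hh, hM1M.2]
    have : 0 < M1.card := Finset.card_pos.2 ⟨h, hh⟩
    rw [hM1M.2] at this
    omega
  have hfM2 : f ∉ M2 := by
    rw [hM2, Finset.mem_insert]; push Not
    exact ⟨hpf.symm, fun h1 => hfM1 (Finset.mem_of_mem_erase h1)⟩
  have hgM2 : g ∈ M2 := by
    rw [hM2, Finset.mem_insert]; exact Or.inr (Finset.mem_erase.2 ⟨hhg.symm, hgM1⟩)
  obtain ⟨up, hup, hup0, hupS⟩ := exists_inter hs hM1M p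
  have hxM2 : x ∉ S L M2 := by
    intro hx2
    rw [hM2, S_insert] at hx2
    obtain ⟨l, hl, s, hsS, hls⟩ := Submodule.mem_sup.1 hx2
    have hsS1 : s ∈ S L M1 := S_mono (Finset.erase_subset _ _) hsS
    obtain ⟨a, b, rfl⟩ := pair_gen (hs.two p) hxp hup hxpS1 hupS hup0 hl
    have h1 : (1 : F) • x + (-a) • xp ∈ S L M1 := by
      have e1 : (1 : F) • x + (-a) • xp = b • up + s := by
        rw [← hls, one_smul, neg_smul]; abel
      rw [e1]
      exact (S L M1).add_mem ((S L M1).smul_mem _ hupS) hsS1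
    exact one_ne_zero (hindM1 _ _ h1).1
  have hM2g : Ind L (insert f (M2.erase g)) := by
    refine EX0 hs.two hM2M.1 hfM2 hx hxM2 hu (w := fun e => if e = p then 0 else w e) ?_ ?_ hgM2 ?_
    · intro e he
      by_cases hep : e = p
      · simp [hep]
      · simp only [hep, if_false]
        exact hw e (Finset.mem_of_mem_erase ((Finset.mem_insert.1 he).resolve_left hep))
    · rw [hM2, Finset.sum_insert hpe, if_pos rfl, zero_add, ← hws,
        ← Finset.add_sum_erase M1 _ hh, hwh, zero_add]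
      refine Finset.sum_congr rfl fun e he => ?_
      have hne : e ≠ p := fun h1 => hpe (h1 ▸ he)
      simp [hne]
    · simp only [hpg.symm, if_false]; exact hwg
  -- new admissible set
  have hM' : Adm L m f g (insert p (M.erase h)) := by
    have e1 : (insert p (M.erase h)).erase f = M2 := by
      ext e
      simp only [hM2, hM1, Finset.mem_insert, Finset.mem_erase]
      constructor
      · rintro ⟨h1, h2 | h2⟩
        · exact Or.inl h2
        · exact Or.inr ⟨h2.1, h1, h2.2⟩
      · rintro (h1 | h1)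
        · exact ⟨h1 ▸ hpf, Or.inl h1⟩
        · exact ⟨h1.2.1, Or.inr ⟨h1.1, h1.2.2⟩⟩
    have e2 : (insert p (M.erase h)).erase g = insert f (M2.erase g) := by
      ext e
      simp only [hM2, hM1, Finset.mem_insert, Finset.mem_erase]
      by_cases hef : e = f
      · subst hef; simp [hfg, hM.hf, hhf.symm]
      · simp [hef]
    refine ⟨?_, ?_, ?_, ?_, ?_, ?_⟩
    · exact Finset.mem_insert_of_mem (Finset.mem_erase.2 ⟨hhf.symm, hM.hf⟩)
    · exact Finset.mem_insert_of_mem (Finset.mem_erase.2 ⟨hhg.symm, hM.hg⟩)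
    · rw [Finset.card_insert_of_notMem (fun h1 => hpM (Finset.mem_of_mem_erase h1)),
        Finset.card_erase_of_mem hhM, hM.card]
      omega
    · rw [e1]; exact hM2M.1
    · rw [e2]; exact hM2g
    · rw [e1]; exact ⟨x, hx, hxM2⟩
  have := hmax (insert p (M.erase h), P) ⟨hM', hP, hind⟩
  have h3 : insert p (P ∩ M) ⊆ P ∩ insert p (M.erase h) := by
    intro e he
    rcases Finset.mem_insert.1 he with rfl | he
    · exact Finset.mem_inter.2 ⟨hp, Finset.mem_insert_self _ _⟩
    · obtain ⟨he1, he2⟩ := Finset.mem_inter.1 he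
      exact Finset.mem_inter.2 ⟨he1, Finset.mem_insert_of_mem
        (Finset.mem_erase.2 ⟨fun h1 => hhP (h1 ▸ he1), he2⟩)⟩
  have h4 := Finset.card_le_card h3
  rw [Finset.card_insert_of_notMem (fun h1 => hpM (Finset.mem_inter.1 h1).2)] at h4
  simp only at this
  omega

end Pool.Agent.V11300.DR
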