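import Mathlib

/-!
# Independent families of planes (matroid parity for linear matroids), basic lemmas
-/

namespace Pool.Agent.V11300.DR

open Finset Submodule Module

variable {F V ι : Type*} [Field F] [AddCommGroup V] [Module F V] [DecidableEq ι]

/-- `M` is a set of indices for which the sum of the subspaces `L e` is direct. -/
def Ind (L : ι → Submodule F V) (M : Finset ι) : Prop :=
  ∀ w : ι → V, (∀ e ∈ M, w e ∈ L e) → ∑ e ∈ M, w e = 0 → ∀ e ∈ M, w e = 0

/-- The span of the subspaces `L e`, `e ∈ M`. -/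
def S (L : ι → Submodule F V) (M : Finset ι) : Submodule F V := ⨆ e ∈ M, L e

variable {L : ι → Submodule F V} {M N D : Finset ι}

lemma mem_S {x : V} :
    x ∈ S L M ↔ ∃ w : ι → V, (∀ e ∈ M, w e ∈ L e) ∧ ∑ e ∈ M, w e = x := by
  unfold S
  rw [Submodule.mem_iSup_finset_iff_exists_sum]
  constructor
  · rintro ⟨μ, h⟩
    exact ⟨fun e => (μ e : V), fun e _ => (μ e).2, h⟩
  · rintro ⟨w, hw, h⟩
    refine ⟨fun e => if he : e ∈ M then ⟨w e, hw e he⟩ else 0, ?_⟩
    rw [← h]
    refine Finset.sum_congr rfl fun e he => ?_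
    simp [he]

lemma le_S {e : ι} (he : e ∈ M) : L e ≤ S L M := by
  unfold S
  exact le_iSup₂_of_le e he le_rfl

lemma S_le {T : Submodule F V} (h : ∀ e ∈ M, L e ≤ T) : S L M ≤ T := by
  unfold S
  exact iSup₂_le h

lemma S_mono (h : M ⊆ N) : S L M ≤ S L N := S_le fun _ he => le_S (h he)

lemma S_insert (e : ι) : S L (insert e M) = L e ⊔ S L M := by
  unfold S
  rw [Finset.iSup_insert]

lemma Ind.mono (h : Ind L N) (hM : M ⊆ N) : Ind L M := by
  intro w hw hs e he
  have h1 := h (fun e => if e ∈ M then w e else 0) (fun e _ => by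
    by_cases h : e ∈ M
    · simpa [h] using hw e h
    · simp [h]) (by
      rw [← Finset.sum_subset hM (fun e _ he => by simp [he])]
      rw [← hs]
      refine Finset.sum_congr rfl fun e he => by simp [he]) e (hM he)
  simpa [he] using h1

lemma ind_insert {e : ι} (he : e ∉ M) :
    Ind L (insert e M) ↔ Ind L M ∧ Disjoint (L e) (S L M) := by
  constructor
  · intro h
    refine ⟨h.mono (Finset.subset_insert _ _), ?_⟩
    rw [Submodule.disjoint_def]
    intro x hx hxS
    obtain ⟨w, hw, hs⟩ := mem_S.1 hxS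
    have h1 := h (fun i => if i = e then -x else w i) (fun i hi => by
      by_cases hie : i = e
      · subst hie; simpa using (L i).neg_mem hx
      · simpa [hie] using hw i ((Finset.mem_insert.1 hi).resolve_left hie)) (by
        rw [Finset.sum_insert he]
        have : ∑ x_1 ∈ M, (if x_1 = e then -x else w x_1) = ∑ i ∈ M, w i := by
          refine Finset.sum_congr rfl fun i hi => ?_
          have : i ≠ e := fun h => he (h ▸ hi)
          simp [this]
        rw [this, hs]; simp) e (Finset.mem_insert_self _ _)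
    simpa using h1
  · rintro ⟨hM, hd⟩ w hw hs
    rw [Finset.sum_insert he] at hs
    have h1 : w e ∈ S L M := by
      have : w e = ∑ i ∈ M, (fun i => - w i) i := by
        rw [Finset.sum_neg_distrib]; exact eq_neg_of_add_eq_zero_left hs
      rw [this]
      exact mem_S.2 ⟨fun i => - w i, fun i hi => (L i).neg_mem (hw i (Finset.mem_insert_of_mem hi)), rfl⟩
    have h2 : w e = 0 := (Submodule.disjoint_def.1 hd) _ (hw e (Finset.mem_insert_self _ _)) h1
    rw [h2, zero_add] at hs
    intro i hi
    rcases Finset.mem_insert.1 hi with rfl | hi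
    · exact h2
    · exact hM w (fun i hi => hw i (Finset.mem_insert_of_mem hi)) hs i hi

lemma ind_empty : Ind L (∅ : Finset ι) := by
  intro w _ _ e he; simp at he

lemma S_empty : S L (∅ : Finset ι) = ⊥ := by
  unfold S; simp

/-- a plane `P` containing `x ∉ T` and `0 ≠ u ∈ T` is spanned by `x` and `u` -/
lemma pair_gen {P T : Submodule F V} (h2 : finrank F P = 2) {x u : V} (hx : x ∈ P) (hu : u ∈ P)
    (hxT : x ∉ T) (huT : u ∈ T) (hu0 : u ≠ 0) {y : V} (hy : y ∈ P) :
    ∃ a b : F, y = a • x + b • u := by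
  have hli : LinearIndependent F ![x, u] := by
    rw [LinearIndependent.pair_iff]
    intro s t hst
    have hs : s = 0 := by
      by_contra hs
      apply hxT
      have : x = s⁻¹ • (-(t • u)) := by
        rw [← eq_neg_of_add_eq_zero_left hst, smul_smul, inv_mul_cancel₀ hs, one_smul]
      rw [this]
      exact T.smul_mem _ (T.neg_mem (T.smul_mem _ huT))
    subst hs
    rw [zero_smul, zero_add] at hst
    exact ⟨rfl, (smul_eq_zero.1 hst).resolve_right hu0⟩
  haveI : FiniteDimensional F P := FiniteDimensional.of_finrank_pos (by omega)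
  have hle : span F (Set.range ![x, u]) ≤ P := by
    rw [Submodule.span_le]
    rintro _ ⟨i, rfl⟩
    fin_cases i
    · exact hx
    · exact hu
  have hfr : finrank F (span F (Set.range ![x, u])) = 2 := by
    rw [finrank_span_eq_card hli]; simp
  have heq : span F (Set.range ![x, u]) = P := Submodule.eq_of_le_of_finrank_eq hle (by rw [hfr, h2])
  rw [← heq] at hy
  have : Set.range ![x, u] = {x, u} := by
    simp [Matrix.range_cons, Matrix.range_empty, Set.pair_comm]
  rw [this, Submodule.mem_span_pair] at hy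
  obtain ⟨a, b, h⟩ := hy
  exact ⟨a, b, h.symm⟩

/-- exchange criterion -/
lemma EX0 (h2 : ∀ e, finrank F (L e) = 2) (hM : Ind L M) {f g : ι} (hf : f ∉ M) {x u : V} (hx : x ∈ L f)
    (hxS : x ∉ S L M) (hu : u ∈ L f) {w : ι → V} (hw : ∀ e ∈ M, w e ∈ L e)
    (hws : ∑ e ∈ M, w e = u) (hg : g ∈ M) (hwg : w g ≠ 0) :
    Ind L (insert f (M.erase g)) := by
  have hfe : f ∉ M.erase g := fun h => hf (Finset.mem_of_mem_erase h)
  rw [ind_insert hfe]
  refine ⟨hM.mono (Finset.erase_subset _ _), ?_⟩
  rw [Submodule.disjoint_def]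
  intro y hy hyS
  have hu0 : u ≠ 0 := by
    rintro rfl
    exact hwg (hM w hw hws g hg)
  have huS : u ∈ S L M := mem_S.2 ⟨w, hw, hws⟩
  obtain ⟨a, b, rfl⟩ := pair_gen (h2 f) hx hu hxS huS hu0 hy
  have hyM : a • x + b • u ∈ S L M := S_mono (Finset.erase_subset _ _) hyS
  have ha : a = 0 := by
    by_contra ha
    apply hxS
    have h3 : a • x ∈ S L M := by
      have := (S L M).sub_mem hyM ((S L M).smul_mem b huS)
      simpa using this
    have := (S L M).smul_mem a⁻¹ h3
    rwa [smul_smul, inv_mul_cancel₀ ha, one_smul] at this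
  subst ha
  rw [zero_smul, zero_add] at hyS ⊢
  obtain ⟨w', hw', hs'⟩ := mem_S.1 hyS
  have key := hM (fun e => b • w e - (if e = g then 0 else w' e)) (fun e he => by
    by_cases heg : e = g
    · subst heg; simpa using (L e).smul_mem b (hw e he)
    · simpa [heg] using (L e).sub_mem ((L e).smul_mem b (hw e he))
        (hw' e (Finset.mem_erase.2 ⟨heg, he⟩))) (by
      rw [Finset.sum_sub_distrib, ← Finset.smul_sum, hws, ← hs']
      rw [← Finset.add_sum_erase M _ hg]
      simp only [if_true, zero_add]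
      rw [sub_eq_zero]
      refine Finset.sum_congr rfl fun e he => ?_
      simp [Finset.ne_of_mem_erase he]) g hg
  simp only [if_true, sub_zero] at key
  have hb : b = 0 := (smul_eq_zero.1 key).resolve_right hwg
  rw [hb, zero_smul]

/-- converse of the exchange criterion -/
lemma EX0' {f g : ι} (hf : f ∉ M) {u : V} (hu : u ∈ L f) (hu0 : u ≠ 0) {w : ι → V}
    (hw : ∀ e ∈ M, w e ∈ L e) (hws : ∑ e ∈ M, w e = u)
    (h : Ind L (insert f (M.erase g))) : w g ≠ 0 := by
  intro hwg
  have hfe : f ∉ M.erase g := fun h => hf (Finset.mem_of_mem_erase h)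
  rw [ind_insert hfe] at h
  apply hu0
  refine (Submodule.disjoint_def.1 h.2) u hu (mem_S.2 ⟨w, fun e he => hw e (Finset.mem_of_mem_erase he), ?_⟩)
  rw [← hws]
  by_cases hg : g ∈ M
  · rw [← Finset.add_sum_erase M _ hg, hwg, zero_add]
  · rw [Finset.erase_eq_of_notMem hg]

/-- exchange lemma -/
lemma EX (h2 : ∀ e, finrank F (L e) = 2) (hM : Ind L M) {f : ι} (hf : f ∉ M) {x : V} (hx : x ∈ L f)
    (hxS : x ∉ S L M) (hn : ¬ Ind L (insert f M)) (hD : D ⊆ M) (hDf : Ind L (insert f D)) :
    ∃ g ∈ M, g ∉ D ∧ Ind L (insert f (M.erase g)) := by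
  rw [ind_insert hf] at hn
  have hnd : ¬ Disjoint (L f) (S L M) := fun h => hn ⟨hM, h⟩
  rw [Submodule.disjoint_def] at hnd
  push Not at hnd
  obtain ⟨u, hu, huS, hu0⟩ := hnd
  obtain ⟨w, hw, hws⟩ := mem_S.1 huS
  have hfD : f ∉ D := fun h => hf (hD h)
  rw [ind_insert hfD] at hDf
  have : ∃ g ∈ M, g ∉ D ∧ w g ≠ 0 := by
    by_contra hcon
    push Not at hcon
    apply hu0
    refine (Submodule.disjoint_def.1 hDf.2) u hu (mem_S.2 ⟨w, fun e he => hw e (hD he), ?_⟩)
    rw [← hws]
    exact Finset.sum_subset hD (fun e he heD => hcon e he heD)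
  obtain ⟨g, hg, hgD, hwg⟩ := this
  exact ⟨g, hg, hgD, EX0 h2 hM hf hx hxS hu hw hws hg hwg⟩

lemma finrank_S [FiniteDimensional F V] (h2 : ∀ e, finrank F (L e) = 2) (hM : Ind L M) :
    finrank F (S L M) = 2 * M.card := by
  induction M using Finset.induction_on with
  | empty => rw [S_empty]; simp
  | insert e M he ih =>
    rw [ind_insert he] at hM
    have h3 := Submodule.finrank_sup_add_finrank_inf_eq (L e) (S L M)
    rw [hM.2.eq_bot, finrank_bot, add_zero, h2, ih hM.1] at h3
    rw [S_insert, h3, Finset.card_insert_of_notMem he]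
    ring

lemma finrank_sup_disjoint [FiniteDimensional F V] {A B : Submodule F V} (h : Disjoint A B) :
    finrank F (A ⊔ B : Submodule F V) = finrank F A + finrank F B := by
  have h3 := Submodule.finrank_sup_add_finrank_inf_eq A B
  rw [h.eq_bot, finrank_bot, add_zero] at h3
  exact h3

end Pool.Agent.V11300.DR
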