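import Pool.Agent.V11300.DR.A

/-!
# Classes of equivalent planes
-/

set_option linter.unusedSectionVars false

namespace Pool.Agent.V11300.DR

open Finset Submodule Module

variable {F V ι : Type*} [Field F] [AddCommGroup V] [Module F V] [DecidableEq ι]
  [FiniteDimensional F V] [Fintype ι] {L : ι → Submodule F V} {m : ℕ}

/-- extended family -/
def Lx (L : ι → Submodule F V) (T : Submodule F V) : Option ι → Submodule F V
  | none => T
  | some e => L e

lemma ind_map {T : Submodule F V} {M : Finset ι} :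
    Ind (Lx L T) (M.map Function.Embedding.some) ↔ Ind L M := by
  constructor
  · intro h w hw hs e he
    exact h (fun o => o.elim 0 w) (fun o ho => by
      obtain ⟨e, he, rfl⟩ := Finset.mem_map.1 ho
      exact hw e he) (by rw [Finset.sum_map]; exact hs) (some e) (Finset.mem_map.2 ⟨e, he, rfl⟩)
  · intro h w hw hs o ho
    obtain ⟨e, he, rfl⟩ := Finset.mem_map.1 ho
    rw [Finset.sum_map] at hs
    exact h (fun e => w (some e)) (fun e he => hw (some e) (Finset.mem_map.2 ⟨e, he, rfl⟩)) hs e he

lemma S_map {T : Submodule F V} {M : Finset ι} :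
    S (Lx L T) (M.map Function.Embedding.some) = S L M := by
  apply le_antisymm
  · refine S_le fun o ho => ?_
    obtain ⟨e, he, rfl⟩ := Finset.mem_map.1 ho
    exact le_S (L := L) he
  · refine S_le fun e he => ?_
    have h1 : some e ∈ M.map Function.Embedding.some := Finset.mem_map.2 ⟨e, he, rfl⟩
    exact le_S (L := Lx L T) h1

lemma setup_ext (hs : Setup L m) {s x : V} (hsx : Eqv L m s x)
    (hind : ∀ a b : F, a • s + b • x = 0 → a = 0 ∧ b = 0) :
    Setup (Lx L (span F {s, x})) m := by
  classical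
  refine ⟨?_, ?_, ?_⟩
  · rintro (_ | e)
    · exact (pair_disjoint (T := (⊥ : Submodule F V)) (fun a b h => hind a b (by simpa using h))).2
    · exact hs.two e
  · intro M hM
    have hmap : (Finset.eraseNone M).map Function.Embedding.some = M.erase none := Finset.map_some_eraseNone M
    have hI : Ind L (Finset.eraseNone M) := by
      rw [← ind_map (T := span F {s, x}), hmap]
      exact hM.mono (Finset.erase_subset _ _)
    have hcard : (M.erase none).card = (Finset.eraseNone M).card := by
      rw [← hmap, Finset.card_map]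
    have hle := hs.le _ hI
    by_cases hn : none ∈ M
    · rw [Finset.card_erase_of_mem hn] at hcard
      by_contra hcon
      have hMM : MM L m (Finset.eraseNone M) := ⟨hI, by omega⟩
      obtain ⟨a, b, hab, habS⟩ := hsx _ hMM
      rw [← Finset.insert_erase hn, ind_insert (Finset.notMem_erase _ _), ← hmap, S_map] at hM
      have h0 := Submodule.disjoint_def.1 hM.2 (a • s + b • x)
        (Submodule.mem_span_pair.2 ⟨a, b, rfl⟩) habS
      obtain ⟨ha, hb⟩ := hind a b h0
      rcases hab with h | h
      · exact h ha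
      · exact h hb
    · rw [Finset.erase_eq_of_notMem hn] at hcard
      omega
  · intro q hq
    obtain ⟨M, h1, h2, h3⟩ := hs.gal q hq
    exact ⟨M.map Function.Embedding.some, ind_map.2 h1, by rw [Finset.card_map, h2], by rwa [S_map]⟩

lemma lemA' (hs : Setup L m) {x s : V} (hsx : Eqv L m s x) {M : Finset ι} (hM : MM L m M)
    (hx : x ∉ S L M) {w : ι → V} (hw : ∀ e ∈ M, w e ∈ L e) (hws : ∑ e ∈ M, w e = s) {g : ι}
    (hg : g ∈ M) (hwg : w g ≠ 0) {z : V} (hz : z ∈ L g) : Eqv L m x z := by
  classical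
  have hsS : s ∈ S L M := mem_S.2 ⟨w, hw, hws⟩
  have hs0 : s ≠ 0 := by
    rintro rfl
    exact hwg (hM.1 w hw hws g hg)
  have hind : ∀ a b : F, a • s + b • x = 0 → a = 0 ∧ b = 0 := by
    intro a b hab
    have hb : b = 0 := by
      by_contra hb
      apply hx
      have e1 : x = b⁻¹ • (-(a • s)) := by
        rw [← eq_neg_of_add_eq_zero_right hab, smul_smul, inv_mul_cancel₀ hb, one_smul]
      rw [e1]
      exact (S L M).smul_mem _ ((S L M).neg_mem ((S L M).smul_mem _ hsS))
    subst hb
    rw [zero_smul, add_zero] at hab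
    exact ⟨(smul_eq_zero.1 hab).resolve_right hs0, rfl⟩
  have hs' := setup_ext hs hsx hind
  have hxm : x ∈ Lx L (span F {s, x}) none := Submodule.mem_span_pair.2 ⟨0, 1, by simp⟩
  have hsm : s ∈ Lx L (span F {s, x}) none := Submodule.mem_span_pair.2 ⟨1, 0, by simp⟩
  have hnone : none ∉ M.map Function.Embedding.some := by simp
  have hgm : some g ∈ M.map Function.Embedding.some := Finset.mem_map.2 ⟨g, hg, rfl⟩
  have hMI : Ind (Lx L (span F {s, x})) (M.map Function.Embedding.some) := ind_map.2 hM.1
  have hxS' : x ∉ S (Lx L (span F {s, x})) (M.map Function.Embedding.some) := by rwa [S_map]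
  have hA : Adm (Lx L (span F {s, x})) m none (some g)
      (insert none (M.map Function.Embedding.some)) := by
    refine ⟨Finset.mem_insert_self _ _, Finset.mem_insert_of_mem hgm, ?_, ?_, ?_, ?_⟩
    · rw [Finset.card_insert_of_notMem hnone, Finset.card_map, hM.2]
    · rw [Finset.erase_insert hnone]; exact hMI
    · rw [Finset.erase_insert_of_ne (by simp)]
      refine EX0 hs'.two hMI hnone hxm hxS' hsm (w := fun o => o.elim 0 w) ?_ ?_ hgm hwg
      · intro o ho
        obtain ⟨e, he, rfl⟩ := Finset.mem_map.1 ho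
        exact hw e he
      · rw [Finset.sum_map]; exact hws
    · rw [Finset.erase_insert hnone]; exact ⟨x, hxm, hxS'⟩
  have hE := lemA hs' (by simp) hA hxm (z := z) hz
  intro P hP
  have := hE (P.map Function.Embedding.some) ⟨ind_map.2 hP.1, by rw [Finset.card_map, hP.2]⟩
  rwa [S_map] at this

lemma eqv_of_mem_S {x : V} {C : Finset ι} (hC : ∀ e ∈ C, ∀ y ∈ L e, Eqv L m y x) {v : V}
    (hv : v ∈ S L C) : Eqv L m v x := by
  intro M hM
  by_cases hx : x ∈ S L M
  · exact ⟨0, 1, Or.inr one_ne_zero, by simpa using hx⟩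
  · have h1 : S L C ≤ S L M ⊔ span F {x} := S_le fun e he y hy => mem_of_eqv hM (hC e he y hy) hx
    obtain ⟨s, hs, t, ht, rfl⟩ := Submodule.mem_sup.1 (h1 hv)
    obtain ⟨a, rfl⟩ := Submodule.mem_span_singleton.1 ht
    refine ⟨1, -a, Or.inl one_ne_zero, ?_⟩
    have e1 : (1 : F) • (s + a • x) + (-a) • x = s := by
      rw [one_smul, neg_smul]; abel
    rw [e1]; exact hs

/-- a full class of pairwise equivalent planes -/
structure IsClass (L : ι → Submodule F V) (m : ℕ) (C : Finset ι) : Prop where
  eqv : ∀ e ∈ C, ∀ e' ∈ C, ∀ y ∈ L e, ∀ y' ∈ L e', Eqv L m y y'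
  full : ∀ e ∈ C, ∀ x ∈ L e, x ≠ 0 → ∀ e', (∀ y ∈ L e', Eqv L m x y) → e' ∈ C

lemma class_le (hs : Setup L m) {C : Finset ι} (hC : IsClass L m C) {c0 : ι} (hc0 : c0 ∈ C) {x : V}
    (hx : x ∈ L c0) {M : Finset ι} (hM : MM L m M) (hxM : x ∉ S L M) :
    finrank F (S L C) ≤ 2 * (M ∩ C).card + 1 := by
  have hx0 : x ≠ 0 := by
    rintro rfl; exact hxM (S L M).zero_mem
  have hCx : ∀ e ∈ C, ∀ y ∈ L e, Eqv L m y x := fun e he y hy => hC.eqv e he c0 hc0 y hy x hx
  have hle : S L C ≤ S L (M ∩ C) ⊔ span F {x} := by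
    intro v hv
    obtain ⟨s, hsS, t, ht, hst⟩ := Submodule.mem_sup.1 (mem_of_eqv hM (eqv_of_mem_S hCx hv) hxM)
    obtain ⟨a, rfl⟩ := Submodule.mem_span_singleton.1 ht
    have hsC : s ∈ S L C := by
      have e1 : s = v - a • x := by rw [← hst]; abel
      rw [e1]
      exact (S L C).sub_mem hv ((S L C).smul_mem _ (le_S hc0 hx))
    have hsx : Eqv L m s x := eqv_of_mem_S hCx hsC
    obtain ⟨w, hw, hws⟩ := mem_S.1 hsS
    have hsMC : s ∈ S L (M ∩ C) := by
      refine mem_S.2 ⟨w, fun e he => hw e (Finset.mem_inter.1 he).1, ?_⟩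
      rw [← hws]
      refine Finset.sum_subset Finset.inter_subset_left fun e he heMC => ?_
      by_contra hwe
      apply heMC
      refine Finset.mem_inter.2 ⟨he, hC.full c0 hc0 x hx hx0 e fun y hy => ?_⟩
      exact lemA' hs hsx hM hxM hw hws he hwe hy
    rw [← hst]
    exact Submodule.add_mem _ (Submodule.mem_sup_left hsMC) (Submodule.mem_sup_right ht)
  have h1 := Submodule.finrank_mono hle
  have h2 := Submodule.finrank_add_le_finrank_add_finrank (S L (M ∩ C)) (span F {x})
  rw [finrank_span_singleton hx0, finrank_S hs.two (hM.1.mono Finset.inter_subset_left)] at h2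
  omega

lemma count_le (hs : Setup L m) {C : Finset ι} (hC : IsClass L m C) {c0 : ι} (hc0 : c0 ∈ C) {x : V}
    (hx : x ∈ L c0) {N : Finset ι} (hN : MM L m N) (hxN : x ∉ S L N) :
    ∀ k : ℕ, ∀ M, MM L m M → (N \ M).card < k → (N ∩ C).card ≤ (M ∩ C).card := by
  intro k
  induction k with
  | zero => intro M _ h; omega
  | succ k ih =>
    intro M hM hcard
    by_cases hcov : S L C ≤ S L M
    · obtain ⟨n, hn, x1, hx1, hx1S⟩ : ∃ n ∈ N, ∃ x1 ∈ L n, x1 ∉ S L M := by
        by_contra hcon
        push Not at hcon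
        have hle : S L N ≤ S L M := S_le fun n hn y hy => hcon n hn y hy
        have heq : S L N = S L M := Submodule.eq_of_le_of_finrank_eq hle (by
          rw [finrank_S hs.two hN.1, finrank_S hs.two hM.1, hN.2, hM.2])
        apply hxN
        rw [heq]
        exact hcov (le_S hc0 hx)
      have hnM : n ∉ M := fun h => hx1S (le_S h hx1)
      obtain ⟨g, hg, hgD, hgi⟩ := EX hs.two hM.1 hnM hx1 hx1S (not_ind_insert hs hM hnM)
        (D := M ∩ N) Finset.inter_subset_left
        (hN.1.mono (Finset.insert_subset hn Finset.inter_subset_right))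
      have hgN : g ∉ N := fun h => hgD (Finset.mem_inter.2 ⟨hg, h⟩)
      have hng : n ≠ g := fun h => hnM (h ▸ hg)
      have hA : Adm L m n g (insert n M) := by
        refine ⟨Finset.mem_insert_self _ _, Finset.mem_insert_of_mem hg, ?_, ?_, ?_, ?_⟩
        · rw [Finset.card_insert_of_notMem hnM, hM.2]
        · rw [Finset.erase_insert hnM]; exact hM.1
        · rw [Finset.erase_insert_of_ne hng]; exact hgi
        · rw [Finset.erase_insert hnM]; exact ⟨x1, hx1, hx1S⟩
      have hE : ∀ y ∈ L n, ∀ z ∈ L g, Eqv L m y z := fun y hy z hz => lemA hs hng hA hy hz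
      have hnC : n ∉ C := fun h => hx1S (hcov (le_S h hx1))
      have hgC : g ∉ C := by
        intro h
        have h2 := hs.two g
        have hne : L g ≠ ⊥ := by
          intro h; rw [h, finrank_bot] at h2; omega
        obtain ⟨z, hz, hz0⟩ := (Submodule.ne_bot_iff _).1 hne
        exact hnC (hC.full g h z hz hz0 n fun y hy => (hE y hy z hz).symm)
      have hne : n ∉ M.erase g := fun h => hnM (Finset.mem_of_mem_erase h)
      have hM' : MM L m (insert n (M.erase g)) := by
        refine ⟨hgi, ?_⟩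
        rw [Finset.card_insert_of_notMem hne, Finset.card_erase_of_mem hg, hM.2]
        have : 0 < M.card := Finset.card_pos.2 ⟨g, hg⟩
        rw [hM.2] at this
        omega
      have hMC : insert n (M.erase g) ∩ C = M ∩ C := by
        ext e
        simp only [Finset.mem_inter, Finset.mem_insert, Finset.mem_erase]
        constructor
        · rintro ⟨h1 | h1, h2⟩
          · exact absurd (h1 ▸ h2) hnC
          · exact ⟨h1.2, h2⟩
        · rintro ⟨h1, h2⟩
          exact ⟨Or.inr ⟨fun h => hgC (h ▸ h2), h1⟩, h2⟩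
      have hlt : (N \ insert n (M.erase g)).card < (N \ M).card := by
        refine Finset.card_lt_card ⟨?_, ?_⟩
        · intro e he
          simp only [Finset.mem_sdiff, Finset.mem_insert, Finset.mem_erase] at he ⊢
          refine ⟨he.1, fun h => he.2 (Or.inr ⟨fun h' => hgN (h' ▸ he.1), h⟩)⟩
        · intro h
          have := h (Finset.mem_sdiff.2 ⟨hn, hnM⟩)
          simp at this
      have := ih _ hM' (by omega)
      rwa [hMC] at this
    · have : ∃ c1 ∈ C, ∃ x1 ∈ L c1, x1 ∉ S L M := by
        by_contra hcon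
        push Not at hcon
        exact hcov (S_le fun n hn y hy => hcon n hn y hy)
      obtain ⟨c1, hc1, x1, hx1, hx1S⟩ := this
      have h1 := class_le hs hC hc1 hx1 hM hx1S
      have h2 : S L (N ∩ C) ≤ S L C := S_mono Finset.inter_subset_right
      have h3 := Submodule.finrank_mono h2
      rw [finrank_S hs.two (hN.1.mono Finset.inter_subset_left)] at h3
      omega

lemma class_bound (hs : Setup L m) {C : Finset ι} (hC : IsClass L m C) {c0 : ι} (hc0 : c0 ∈ C)
    {M : Finset ι} (hM : MM L m M) : finrank F (S L C) ≤ 2 * (M ∩ C).card + 1 := by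
  have h2 := hs.two c0
  have hne : L c0 ≠ ⊥ := by
    intro h; rw [h, finrank_bot] at h2; omega
  obtain ⟨x, hx, hx0⟩ := (Submodule.ne_bot_iff _).1 hne
  obtain ⟨N, hN1, hN2, hN3⟩ := hs.gal x hx0
  have h3 := class_le hs hC hc0 hx ⟨hN1, hN2⟩ hN3
  have h4 := count_le hs hC hc0 hx ⟨hN1, hN2⟩ hN3 _ M hM (Nat.lt_succ_self _)
  omega

end Pool.Agent.V11300.DR
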