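import Pool.Agent.V11300.DR.C

/-!
# The rank bound
-/

set_option linter.unusedSectionVars false

namespace Pool.Agent.V11300.DR

open Finset Submodule Module

section
variable {F V ι : Type*} [Field F] [AddCommGroup V] [Module F V] [DecidableEq ι]
  [FiniteDimensional F V] [Fintype ι] {L : ι → Submodule F V} {m : ℕ}

lemma class_choice (hs : Setup L m) {a b : ι → V} (hab : ∀ e, L e = span F {a e, b e})
    {C : Finset ι} (hC : IsClass L m C) {c0 : ι} (hc0 : c0 ∈ C) {M : Finset ι} (hM : MM L m M) :
    ∃ v : ι → F, finrank F (span F ((fun e => b e + v e • a e) '' (C : Set ι))) +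
      finrank F (span F (a '' (C : Set ι))) ≤ 2 * (M ∩ C).card + C.card := by
  have hW := class_bound hs hC hc0 hM
  have ha : ∀ e, a e ∈ L e := fun e => by
    rw [hab]; exact Submodule.mem_span_pair.2 ⟨1, 0, by simp⟩
  have hb : ∀ e, b e ∈ L e := fun e => by
    rw [hab]; exact Submodule.mem_span_pair.2 ⟨0, 1, by simp⟩
  have hrange : a '' (C : Set ι) = Set.range (fun e : C => a e) := by
    rw [Set.image_eq_range]; rfl
  by_cases hli : LinearIndependent F (fun e : C => a e)
  · obtain ⟨φ, hφ⟩ : ∃ φ : V →ₗ[F] F, ∀ e ∈ C, φ (a e) = 1 := by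
      obtain ⟨g, hg⟩ := LinearMap.exists_extend ((Basis.span hli).constr F (fun _ => (1 : F)))
      refine ⟨g, fun e he => ?_⟩
      have h1 : (((Basis.span hli) ⟨e, he⟩ : span F (Set.range _)) : V) = a e :=
        congrArg Subtype.val (Basis.span_apply hli ⟨e, he⟩)
      have h2 : g.comp (Submodule.subtype _) ((Basis.span hli) ⟨e, he⟩) = 1 := by
        rw [hg, Basis.constr_basis]
      rw [← h1]; exact h2
    refine ⟨fun e => - φ (b e), ?_⟩
    have h1 : span F ((fun e => b e + (- φ (b e)) • a e) '' (C : Set ι)) ≤
        LinearMap.ker φ ⊓ S L C := by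
      rw [Submodule.span_le]
      rintro _ ⟨e, he, rfl⟩
      have he : e ∈ C := he
      refine ⟨?_, ?_⟩
      · show φ (b e + (-φ (b e)) • a e) = 0
        rw [map_add, map_smul, hφ e he]; simp
      · exact (S L C).add_mem (le_S he (hb e)) ((S L C).smul_mem _ (le_S he (ha e)))
    have h2 : LinearMap.ker φ ⊓ S L C < S L C := by
      refine lt_of_le_of_ne inf_le_right fun h => ?_
      have h3 : a c0 ∈ LinearMap.ker φ ⊓ S L C := by rw [h]; exact le_S hc0 (ha c0)
      have h4 : φ (a c0) = 0 := h3.1
      rw [hφ c0 hc0] at h4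
      exact one_ne_zero h4
    have h3 := Submodule.finrank_lt_finrank_of_lt h2
    have h4 := Submodule.finrank_mono h1
    have h5 : finrank F (span F (a '' (C : Set ι))) ≤ C.card := by
      rw [hrange]
      have := finrank_range_le_card (R := F) (fun e : C => a e)
      rw [Fintype.card_coe] at this
      exact this
    beta_reduce
    omega
  · rw [linearIndependent_iff_card_le_finrank_span] at hli
    push Not at hli
    rw [Fintype.card_coe] at hli
    refine ⟨fun _ => 0, ?_⟩
    have h1 : span F ((fun e => b e + (0 : F) • a e) '' (C : Set ι)) ≤ S L C := by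
      rw [Submodule.span_le]
      rintro _ ⟨e, he, rfl⟩
      have he : e ∈ C := he
      exact (S L C).add_mem (le_S he (hb e)) ((S L C).smul_mem _ (le_S he (ha e)))
    have h4 := Submodule.finrank_mono h1
    have h5 : finrank F (span F (a '' (C : Set ι))) < C.card := by
      rw [hrange]; exact hli
    beta_reduce
    omega

lemma finrank_biSup_le {κ : Type*} [DecidableEq κ] (s : Finset κ) (W : κ → Submodule F V) :
    finrank F (⨆ c ∈ s, W c : Submodule F V) ≤ ∑ c ∈ s, finrank F (W c) := by
  induction s using Finset.induction_on with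
  | empty => simp
  | insert c s hc ih =>
    rw [Finset.iSup_insert, Finset.sum_insert hc]
    have := Submodule.finrank_add_le_finrank_add_finrank (W c) (⨆ c ∈ s, W c)
    omega

lemma finrank_fiber_le {κ : Type*} [Fintype κ] [DecidableEq κ] (k : ι → κ) (f : ι → V) :
    finrank F (span F (Set.range f)) ≤
      ∑ c, finrank F (span F (f '' ((univ.filter (fun e => k e = c) : Finset ι) : Set ι))) := by
  refine le_trans (Submodule.finrank_mono ?_) (finrank_biSup_le univ
    (fun c => span F (f '' ((univ.filter (fun e => k e = c) : Finset ι) : Set ι))))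
  rw [Submodule.span_le]
  rintro _ ⟨e, rfl⟩
  refine Submodule.mem_iSup_of_mem (k e) (Submodule.mem_iSup_of_mem (Finset.mem_univ _) ?_)
  exact subset_span ⟨e, by simp, rfl⟩

theorem gallai (hs : Setup L m) {a b : ι → V} (hab : ∀ e, L e = span F {a e, b e}) :
    ∃ v : ι → F, finrank F (span F (Set.range (fun e => b e + v e • a e))) +
      finrank F (span F (Set.range a)) ≤ 2 * m + Fintype.card ι := by
  classical
  have hr : ∀ e, ∃ x ∈ L e, x ≠ 0 := by
    intro e
    have h2 := hs.two e
    have hne : L e ≠ ⊥ := by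
      intro h; rw [h, finrank_bot] at h2; omega
    exact (Submodule.ne_bot_iff _).1 hne
  choose r hr hr0 using hr
  let st : Setoid ι := ⟨fun e f => Eqv L m (r e) (r f), fun e => eqv_line hs (hr e) (hr e),
    fun h => h.symm, fun h1 h2 => Eqv.trans hs (hr0 _) h1 h2⟩
  let κ := Quotient st
  let k : ι → κ := Quotient.mk st
  have hk : ∀ e f, k e = k f ↔ Eqv L m (r e) (r f) := fun e f => Quotient.eq (r := st)
  letI : Fintype κ := Fintype.ofFinite κ
  let cls : κ → Finset ι := fun c => Finset.univ.filter (fun e => k e = c)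
  have hcls : ∀ c, IsClass L m (cls c) := by
    intro c
    refine ⟨?_, ?_⟩
    · intro e he e' he' y hy y' hy'
      have h1 : k e = c := (Finset.mem_filter.1 he).2
      have h2 : k e' = c := (Finset.mem_filter.1 he').2
      have h3 : Eqv L m (r e) (r e') := (hk e e').1 (h1.trans h2.symm)
      exact Eqv.trans hs (hr0 e) (eqv_line hs hy (hr e))
        (Eqv.trans hs (hr0 e') h3 (eqv_line hs (hr e') hy'))
    · intro e he x hx hx0 e' h
      have h1 : k e = c := (Finset.mem_filter.1 he).2
      have h3 : Eqv L m (r e) (r e') :=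
        Eqv.trans hs hx0 (eqv_line hs (hr e) hx) (h _ (hr e'))
      exact Finset.mem_filter.2 ⟨Finset.mem_univ _, ((hk e e').2 h3).symm.trans h1⟩
  by_cases hne : Nonempty ι
  · obtain ⟨e0⟩ := hne
    obtain ⟨M, hM1, hM2, _⟩ := hs.gal (r e0) (hr0 e0)
    have hch : ∀ c : κ, ∃ v : ι → F,
        finrank F (span F ((fun e => b e + v e • a e) '' (cls c : Set ι))) +
        finrank F (span F (a '' (cls c : Set ι))) ≤ 2 * (M ∩ cls c).card + (cls c).card := by
      intro c
      obtain ⟨e, he⟩ := Quotient.exists_rep c
      exact class_choice hs hab (hcls c) (c0 := e) (Finset.mem_filter.2 ⟨Finset.mem_univ _, he⟩)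
        ⟨hM1, hM2⟩
    choose v hv using hch
    refine ⟨fun e => v (k e) e, ?_⟩
    have h1 := finrank_fiber_le (F := F) k (fun e => b e + v (k e) e • a e)
    have h2 := finrank_fiber_le (F := F) k a
    have h3 : ∀ c, finrank F (span F ((fun e => b e + v (k e) e • a e) '' (cls c : Set ι))) +
        finrank F (span F (a '' (cls c : Set ι))) ≤ 2 * (M ∩ cls c).card + (cls c).card := by
      intro c
      have e1 : (fun e => b e + v (k e) e • a e) '' (cls c : Set ι) =
          (fun e => b e + v c e • a e) '' (cls c : Set ι) := by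
        refine Set.image_congr fun e he => ?_
        have : k e = c := (Finset.mem_filter.1 he).2
        rw [this]
      rw [e1]
      exact hv c
    have h4 := Finset.sum_le_sum (s := (Finset.univ : Finset κ)) fun c _ => h3 c
    rw [Finset.sum_add_distrib, Finset.sum_add_distrib, ← Finset.mul_sum] at h4
    have h5 : ∑ c, (M ∩ cls c).card = m := by
      have e1 : ∀ c, (M ∩ cls c) = M.filter (fun e => k e = c) := by
        intro c; ext e; simp [cls]
      rw [← hM2, Finset.card_eq_sum_card_fiberwise (f := k) (t := (Finset.univ : Finset κ))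
        (fun e _ => Finset.mem_coe.2 (Finset.mem_univ (k e)))]
      exact Finset.sum_congr rfl fun c _ => by rw [e1]
    have h6 : ∑ c, (cls c).card = Fintype.card ι := by
      rw [← Finset.card_univ, Finset.card_eq_sum_card_fiberwise (f := k)
        (t := (Finset.univ : Finset κ)) (fun e _ => Finset.mem_coe.2 (Finset.mem_univ (k e)))]
    rw [h5, h6] at h4
    exact (Nat.add_le_add h1 h2).trans h4
  · rw [not_nonempty_iff] at hne
    refine ⟨fun _ => 0, ?_⟩
    have e1 : Set.range (fun e => b e + (0 : F) • a e) = ∅ := Set.range_eq_empty _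
    have e2 : Set.range a = ∅ := Set.range_eq_empty _
    rw [e1, e2, Submodule.span_empty, finrank_bot]
    omega

end

/-- the pairs `a e, b e`, `e ∈ M`, are jointly linearly independent -/
def IndP (F : Type*) {V ι : Type*} [Field F] [AddCommGroup V] [Module F V] (a b : ι → V)
    (M : Finset ι) : Prop :=
  ∀ α β : ι → F, ∑ e ∈ M, (α e • a e + β e • b e) = 0 → ∀ e ∈ M, α e = 0 ∧ β e = 0

section
variable {F V ι : Type*} [Field F] [AddCommGroup V] [Module F V]

lemma ind_of_indP {a b : ι → V} {M : Finset ι} (h : IndP F a b M) :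
    Ind (fun e => span F {a e, b e}) M := by
  intro w hw hws
  have h1 : ∀ e, ∃ s t : F, e ∈ M → w e = s • a e + t • b e := by
    intro e
    by_cases he : e ∈ M
    · obtain ⟨s, t, hst⟩ := Submodule.mem_span_pair.1 (hw e he)
      exact ⟨s, t, fun _ => hst.symm⟩
    · exact ⟨0, 0, fun h => absurd h he⟩
  choose α β hαβ using h1
  have h2 := h α β (by rw [← hws]; exact Finset.sum_congr rfl fun e he => (hαβ e he).symm)
  intro e he
  rw [hαβ e he, (h2 e he).1, (h2 e he).2]; simp

lemma indP_of_ind {a b : ι → V} {M : Finset ι}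
    (h0 : ∀ e, ∀ s t : F, s • a e + t • b e = 0 → s = 0 ∧ t = 0)
    (h : Ind (fun e => span F {a e, b e}) M) : IndP F a b M := by
  intro α β hs e he
  exact h0 e _ _ (h (fun e => α e • a e + β e • b e)
    (fun e _ => Submodule.mem_span_pair.2 ⟨_, _, rfl⟩) hs e he)

lemma finrank_map_quot [FiniteDimensional F V] (p : V) (W : Submodule F V) :
    finrank F W ≤ finrank F (W.map (span F {p}).mkQ) + 1 := by
  have h := LinearMap.finrank_range_add_finrank_ker ((span F {p}).mkQ.domRestrict W)
  have h1 : LinearMap.range ((span F {p}).mkQ.domRestrict W) = W.map (span F {p}).mkQ := by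
    rw [LinearMap.range_domRestrict]
  have h2 : finrank F (LinearMap.ker ((span F {p}).mkQ.domRestrict W)) ≤ 1 := by
    have h3 : finrank F ((LinearMap.ker ((span F {p}).mkQ.domRestrict W)).map W.subtype) =
        finrank F (LinearMap.ker ((span F {p}).mkQ.domRestrict W)) :=
      Submodule.finrank_map_subtype_eq _ _
    have h4 : (LinearMap.ker ((span F {p}).mkQ.domRestrict W)).map W.subtype ≤ span F {p} := by
      rintro _ ⟨⟨x, hx⟩, hk, rfl⟩
      have : (span F {p}).mkQ x = 0 := hk
      rwa [Submodule.mkQ_apply, Submodule.Quotient.mk_eq_zero] at this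
    have h5 := Submodule.finrank_mono h4
    have h6 := finrank_span_le_card (R := F) ({p} : Set V)
    simp only [Set.toFinset_singleton, Finset.card_singleton] at h6
    omega
  rw [h1] at h
  omega

lemma finrank_split [FiniteDimensional F V] [Fintype ι] (q : ι) (f : ι → V) :
    finrank F (span F (Set.range f)) ≤
      finrank F (span F (Set.range (fun e : {e // e ≠ q} => f e))) + finrank F (span F {f q}) := by
  refine le_trans (Submodule.finrank_mono ?_) (Submodule.finrank_add_le_finrank_add_finrank _ _)
  rw [Submodule.span_le]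
  rintro _ ⟨e, rfl⟩
  by_cases he : e = q
  · subst he
    exact Submodule.mem_sup_right (Submodule.mem_span_singleton_self _)
  · exact Submodule.mem_sup_left (subset_span ⟨⟨e, he⟩, rfl⟩)

end
end Pool.Agent.V11300.DR
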