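import Pool.Agent.V11300.DR.D

/-!
# The main inequality
-/

set_option linter.unusedSectionVars false

namespace Pool.Agent.V11300.DR

open Finset Submodule Module

universe u v w

/-- Main inequality: if every jointly independent set of pairs has at most `ν` members, one can
choose `v` with `rank (b + v a) + rank a ≤ 2 ν + |ι|`. -/
theorem mainT (F : Type u) [Field F] : ∀ n : ℕ, ∀ (V : Type v) [AddCommGroup V] [Module F V]
    [FiniteDimensional F V] (ι : Type w) [Fintype ι] (a b : ι → V) (ν : ℕ),
    (∀ M : Finset ι, IndP F a b M → M.card ≤ ν) → finrank F V + Fintype.card ι < n →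
    ∃ v : ι → F, finrank F (span F (Set.range (fun e => b e + v e • a e))) +
      finrank F (span F (Set.range a)) ≤ 2 * ν + Fintype.card ι := by
  intro n
  induction n with
  | zero => intro V _ _ _ ι _ a b ν _ h; omega
  | succ n ih =>
    intro V _ _ _ ι _ a b ν hν hn
    classical
    by_cases h0 : ∃ q, ∃ s t : F, (s ≠ 0 ∨ t ≠ 0) ∧ s • a q + t • b q = 0
    · obtain ⟨q, s, t, hst, hq⟩ := h0
      have hcard : Fintype.card {e // e ≠ q} + 1 = Fintype.card ι := by
        have h1 : Fintype.card {e // e ≠ q} = Fintype.card ι - 1 := Set.card_ne_eq q
        have h2 : 0 < Fintype.card ι := Fintype.card_pos_iff.2 ⟨q⟩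
        omega
      obtain ⟨v, hv⟩ := ih V {e // e ≠ q} (fun e => a e) (fun e => b e) ν (by
        intro M hM
        rw [← Finset.card_map (Function.Embedding.subtype _)]
        refine hν _ ?_
        intro α β hs e he
        rw [Finset.sum_map] at hs
        obtain ⟨e', he', rfl⟩ := Finset.mem_map.1 he
        exact hM (fun e => α e) (fun e => β e) hs e' he') (by omega)
      have hc : ∃ c : F, finrank F (span F {b q + c • a q}) + finrank F (span F {a q}) ≤ 1 := by
        have hle : ∀ x : V, finrank F (span F {x}) ≤ 1 := fun x => by
          have h6 := finrank_span_le_card (R := F) ({x} : Set V)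
          simpa using h6
        by_cases ht : t = 0
        · subst ht
          have hs0 : s ≠ 0 := hst.resolve_right (by simp)
          rw [zero_smul, add_zero] at hq
          have ha : a q = 0 := (smul_eq_zero.1 hq).resolve_left hs0
          refine ⟨0, ?_⟩
          have h2 := hle (b q + (0 : F) • a q)
          have h3 : finrank F (span F {a q}) = 0 := by
            rw [ha, Submodule.span_zero_singleton, finrank_bot]
          omega
        · refine ⟨t⁻¹ * s, ?_⟩
          have h1 : b q + (t⁻¹ * s) • a q = 0 := by
            have : b q + (t⁻¹ * s) • a q = t⁻¹ • (s • a q + t • b q) := by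
              rw [smul_add, smul_smul, smul_smul, inv_mul_cancel₀ ht, one_smul, add_comm]
            rw [this, hq, smul_zero]
          have h2 := hle (a q)
          have h3 : finrank F (span F {b q + (t⁻¹ * s) • a q}) = 0 := by
            rw [h1, Submodule.span_zero_singleton, finrank_bot]
          omega
      obtain ⟨c, hc⟩ := hc
      refine ⟨fun e => if h : e ≠ q then v ⟨e, h⟩ else c, ?_⟩
      have h1 := finrank_split (F := F) q
        (fun e => b e + (if h : e ≠ q then v ⟨e, h⟩ else c) • a e)
      have h2 := finrank_split (F := F) q a
      have e1 : (fun e : {e // e ≠ q} =>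
          b e + (if h : (e : ι) ≠ q then v ⟨e, h⟩ else c) • a (e : ι)) =
          fun e : {e // e ≠ q} => b (e : ι) + v e • a (e : ι) := by
        funext e
        rw [dif_pos e.2]
      have e2 : (if h : q ≠ q then v ⟨q, h⟩ else c) = c := dif_neg (by simp)
      beta_reduce at h1
      rw [e1, e2] at h1
      beta_reduce
      omega
    · obtain ⟨M0, hM0, hmax⟩ := exists_max (fun M : Finset ι => IndP F a b M)
        ⟨∅, fun _ _ _ e he => by simp at he⟩ Finset.card
      have hν0 := hν M0 hM0
      have h00 : ∀ e, ∀ s t : F, s • a e + t • b e = 0 → s = 0 ∧ t = 0 := by
        intro e s t hst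
        by_contra hcon
        apply h0
        refine ⟨e, s, t, ?_, hst⟩
        by_contra h2
        push Not at h2
        exact hcon h2
      by_cases h1 : ∃ p : V, p ≠ 0 ∧ ∀ M : Finset ι, IndP F a b M → M.card = M0.card →
          p ∈ S (fun e => span F {a e, b e}) M
      · obtain ⟨p, hp, hall⟩ := h1
        have hM0pos : 0 < M0.card := by
          rw [Finset.card_pos]
          by_contra hcon
          rw [Finset.not_nonempty_iff_eq_empty] at hcon
          have := hall M0 hM0 rfl
          rw [hcon, S_empty] at this
          exact hp ((Submodule.mem_bot F).1 this)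
        have hquot := Submodule.finrank_quotient_add_finrank (span F {p})
        rw [finrank_span_singleton hp] at hquot
        obtain ⟨v, hv⟩ := ih (V ⧸ span F {p}) ι (fun e => (span F {p}).mkQ (a e))
          (fun e => (span F {p}).mkQ (b e)) (M0.card - 1) (by
          intro M hM
          have hMV : IndP F a b M := by
            intro α β hs
            refine hM α β ?_
            have := congrArg (span F {p}).mkQ hs
            rw [map_zero, map_sum] at this
            rw [← this]
            exact Finset.sum_congr rfl fun e _ => by rw [map_add, map_smul, map_smul]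
          have hle := hmax M hMV
          by_contra hcon
          have heq : M.card = M0.card := by omega
          have hpS := hall M hMV heq
          obtain ⟨w, hw, hws⟩ := mem_S.1 hpS
          have h1 : ∀ e, ∃ s t : F, e ∈ M → w e = s • a e + t • b e := by
            intro e
            by_cases he : e ∈ M
            · obtain ⟨s, t, hst⟩ := Submodule.mem_span_pair.1 (hw e he)
              exact ⟨s, t, fun _ => hst.symm⟩
            · exact ⟨0, 0, fun h => absurd h he⟩
          choose α β hαβ using h1
          have h2 := hM α β (by
            have h3 : (span F {p}).mkQ (∑ e ∈ M, w e) = 0 := by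
              rw [hws, Submodule.mkQ_apply, Submodule.Quotient.mk_eq_zero]
              exact Submodule.mem_span_singleton_self p
            rw [map_sum] at h3
            refine Eq.trans ?_ h3
            exact Finset.sum_congr rfl fun e he => by
              rw [hαβ e he, map_add, map_smul, map_smul])
          apply hp
          rw [← hws]
          refine Finset.sum_eq_zero fun e he => ?_
          rw [hαβ e he, (h2 e he).1, (h2 e he).2]; simp) (by omega)
        refine ⟨v, ?_⟩
        have h2 := finrank_map_quot p (span F (Set.range (fun e => b e + v e • a e)))
        have h3 := finrank_map_quot p (span F (Set.range a))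
        have e2 : (span F (Set.range (fun e => b e + v e • a e))).map (span F {p}).mkQ =
            span F (Set.range (fun e => (span F {p}).mkQ (b e) + v e • (span F {p}).mkQ (a e))) := by
          rw [Submodule.map_span, ← Set.range_comp]
          congr 2
        have e3 : (span F (Set.range a)).map (span F {p}).mkQ =
            span F (Set.range (fun e => (span F {p}).mkQ (a e))) := by
          rw [Submodule.map_span, ← Set.range_comp]
          rfl
        rw [e2] at h2
        rw [e3] at h3
        omega
      · push Not at h1
        have hs : Setup (fun e => span F {a e, b e}) M0.card := by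
          refine ⟨fun e => ?_, fun M hM => hmax M (indP_of_ind h00 hM), fun q hq => ?_⟩
          · exact (pair_disjoint (T := (⊥ : Submodule F V))
              (fun s t h => h00 e s t (by simpa using h))).2
          · obtain ⟨M, hM1, hM2, hM3⟩ := h1 q hq
            exact ⟨M, ind_of_indP hM1, hM2, hM3⟩
        obtain ⟨v, hv⟩ := gallai hs (a := a) (b := b) (fun e => rfl)
        exact ⟨v, by omega⟩

end Pool.Agent.V11300.DR
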