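import Pool.Agent.V11300.DR.E

/-!
# Essential rank and disjoint rank
-/

namespace Pool.Agent.V11300.DR

open Finset Submodule Module

universe u

/-- `D` is supported on the diagonal positions of `Q1 × Q2`. -/
def SuppDiag {F : Type u} [Field F] {Q1 Q2 : Finset ℕ} (D : Matrix Q1 Q2 F) : Prop :=
  ∀ (i : Q1) (j : Q2), (i : ℕ) ≠ (j : ℕ) → D i j = 0

/-- The essential rank: the minimum of `rank (A + D)` over all `D` supported on the diagonal. -/
noncomputable def erk {F : Type u} [Field F] {Q1 Q2 : Finset ℕ} (A : Matrix Q1 Q2 F) : ℕ :=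
  sInf {r | ∃ D : Matrix Q1 Q2 F, SuppDiag D ∧ r = (A + D).rank}

/-- The disjoint rank: the maximum of the rank of the restriction of `A` to `X1 × X2` over all
`X1 ⊆ Q1` and `X2 ⊆ Q2` without common element. -/
noncomputable def drk {F : Type u} [Field F] {Q1 Q2 : Finset ℕ} (A : Matrix Q1 Q2 F) : ℕ :=
  sSup {r | ∃ (X1 : Finset Q1) (X2 : Finset Q2), (∀ i ∈ X1, ∀ j ∈ X2, (i : ℕ) ≠ (j : ℕ)) ∧
    r = (A.submatrix (fun i : X1 => (i : Q1)) (fun j : X2 => (j : Q2))).rank}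

variable {F : Type u} [Field F] {Q1 Q2 : Finset ℕ} (A : Matrix Q1 Q2 F)

lemma le_drk {X1 : Finset Q1} {X2 : Finset Q2} (h : ∀ i ∈ X1, ∀ j ∈ X2, (i : ℕ) ≠ (j : ℕ)) :
    (A.submatrix (fun i : X1 => (i : Q1)) (fun j : X2 => (j : Q2))).rank ≤ drk A := by
  refine le_csSup ⟨Fintype.card Q2, ?_⟩ ⟨X1, X2, h, rfl⟩
  rintro r ⟨X1, X2, _, rfl⟩
  refine (Matrix.rank_le_card_width _).trans ?_
  rw [Fintype.card_coe]
  exact Finset.card_le_univ _

/-- unit vectors -/
noncomputable def av (F : Type u) [Field F] (Q1 Q2 : Finset ℕ) (q : Q2) : ↥(Q1 ∪ Q2) → F :=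
  Pi.single ⟨(q : ℕ), Finset.mem_union_right _ q.2⟩ 1

/-- extended columns -/
noncomputable def bv (A : Matrix Q1 Q2 F) (q : Q2) : ↥(Q1 ∪ Q2) → F :=
  fun i => if h : (i : ℕ) ∈ Q1 then A ⟨i, h⟩ q else 0

lemma av_apply (q : Q2) (i : ↥(Q1 ∪ Q2)) :
    av F Q1 Q2 q i = if (i : ℕ) = (q : ℕ) then 1 else 0 := by
  unfold av
  rw [Pi.single_apply]
  congr 1
  simp [Subtype.ext_iff]

lemma card_le_drk (M : Finset Q2) (hM : IndP F (av F Q1 Q2) (bv A) M) : M.card ≤ drk A := by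
  classical
  set X1 : Finset Q1 := Finset.univ.filter (fun i => ∀ j ∈ M, (i : ℕ) ≠ (j : ℕ)) with hX1
  have hdis : ∀ i ∈ X1, ∀ j ∈ M, (i : ℕ) ≠ (j : ℕ) := fun i hi => (Finset.mem_filter.1 hi).2
  refine le_trans (le_of_eq ?_) (le_drk A hdis)
  rw [← Matrix.rank_transpose, LinearIndependent.rank_matrix, Fintype.card_coe]
  rw [Fintype.linearIndependent_iff]
  intro g hg
  set β : Q2 → F := fun q => if h : q ∈ M then g ⟨q, h⟩ else 0 with hβ
  have hsum : ∀ i : ↥(Q1 ∪ Q2), (∀ j ∈ M, (i : ℕ) ≠ (j : ℕ)) → ∑ e ∈ M, β e * bv A e i = 0 := by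
    intro i hi
    by_cases h1 : (i : ℕ) ∈ Q1
    · have hiX : (⟨i, h1⟩ : Q1) ∈ X1 := Finset.mem_filter.2 ⟨Finset.mem_univ _, hi⟩
      have h2 := congrFun hg ⟨⟨i, h1⟩, hiX⟩
      rw [Finset.sum_apply] at h2
      rw [← Finset.sum_coe_sort M (fun e => β e * bv A e i)]
      refine Eq.trans (Finset.sum_congr rfl fun e _ => ?_) h2
      simp only [hβ, bv, dif_pos h1, e.2, dif_pos, Pi.smul_apply, smul_eq_mul]
      rfl
    · refine Finset.sum_eq_zero fun e _ => ?_
      simp [bv, h1]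
  have h1 := hM (fun q => - ∑ e ∈ M, β e * bv A e ⟨(q : ℕ), Finset.mem_union_right _ q.2⟩) β (by
    funext i
    rw [Finset.sum_apply]
    simp only [Pi.add_apply, Pi.smul_apply, smul_eq_mul, Pi.zero_apply, av_apply]
    rw [Finset.sum_add_distrib]
    by_cases hi : ∃ j ∈ M, (i : ℕ) = (j : ℕ)
    · obtain ⟨j, hj, hij⟩ := hi
      rw [Finset.sum_eq_single_of_mem j hj]
      · rw [if_pos hij, mul_one]
        have hi' : i = ⟨(j : ℕ), Finset.mem_union_right _ j.2⟩ := Subtype.ext hij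
        rw [← hi']
        exact neg_add_cancel _
      · intro e _ he
        rw [if_neg, mul_zero]
        intro h
        exact he (Subtype.ext (h.symm.trans hij))
    · push Not at hi
      rw [hsum i hi, add_zero]
      refine Finset.sum_eq_zero fun e he => ?_
      rw [if_neg (hi e he), mul_zero])
  intro j
  have h2 := (h1 j j.2).2
  simpa [hβ] using h2

theorem erk_le : erk A ≤ 2 * drk A := by
  classical
  obtain ⟨v, hv⟩ := mainT F _ (↥(Q1 ∪ Q2) → F) Q2 (av F Q1 Q2) (bv A) (drk A)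
    (card_le_drk A) (Nat.lt_succ_self _)
  have hli : LinearIndependent F (av F Q1 Q2) := by
    have h1 := (Pi.basisFun F ↥(Q1 ∪ Q2)).linearIndependent.comp
      (fun q : Q2 => (⟨(q : ℕ), Finset.mem_union_right _ q.2⟩ : ↥(Q1 ∪ Q2)))
      (fun x y h => Subtype.ext (Subtype.mk.inj h))
    have h2 : (Pi.basisFun F ↥(Q1 ∪ Q2)) ∘
      (fun q : Q2 => (⟨(q : ℕ), Finset.mem_union_right _ q.2⟩ : ↥(Q1 ∪ Q2))) = av F Q1 Q2 := by
      funext q
      simp [av, Pi.basisFun_apply]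
    rwa [h2] at h1
  rw [finrank_span_eq_card hli] at hv
  set D : Matrix Q1 Q2 F := fun i j => if (i : ℕ) = (j : ℕ) then v j else 0 with hD
  have hle : erk A ≤ (A + D).rank := Nat.sInf_le ⟨D, fun i j hij => by simp [hD, hij], rfl⟩
  refine hle.trans ?_
  rw [Matrix.rank_eq_finrank_span_cols]
  set ρ : (↥(Q1 ∪ Q2) → F) →ₗ[F] (Q1 → F) :=
    LinearMap.funLeft F F (fun i : Q1 => (⟨(i : ℕ), Finset.mem_union_left _ i.2⟩ : ↥(Q1 ∪ Q2)))
    with hρ
  have hcol : Set.range (A + D).col = ρ '' Set.range (fun e => bv A e + v e • av F Q1 Q2 e) := by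
    rw [← Set.range_comp]
    congr 1
    funext j
    funext i
    simp only [Function.comp, hρ, LinearMap.funLeft_apply, Matrix.col_apply, Matrix.add_apply, hD,
      Pi.add_apply, Pi.smul_apply, smul_eq_mul, av_apply, bv]
    simp
  rw [hcol, ← Submodule.map_span]
  have := Submodule.finrank_map_le ρ (span F (Set.range (fun e => bv A e + v e • av F Q1 Q2 e)))
  omega

end Pool.Agent.V11300.DR
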