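import Pool.Agent.V11300.DR.Base

/-!
# The Gallai-type part of the linear matroid parity theorem
-/

set_option linter.unusedSectionVars false

namespace Pool.Agent.V11300.DR

open Finset Submodule Module

variable {F V ι : Type*} [Field F] [AddCommGroup V] [Module F V] [DecidableEq ι]
  [FiniteDimensional F V] [Fintype ι]

/-- Planes `L e`, independent sets have at most `m` members, and every nonzero vector is missed by
the span of an independent set with `m` members. -/
structure Setup (L : ι → Submodule F V) (m : ℕ) : Prop where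
  two : ∀ e, finrank F (L e) = 2
  le : ∀ M, Ind L M → M.card ≤ m
  gal : ∀ q : V, q ≠ 0 → ∃ M, Ind L M ∧ M.card = m ∧ q ∉ S L M

/-- maximum independent sets -/
def MM (L : ι → Submodule F V) (m : ℕ) (M : Finset ι) : Prop := Ind L M ∧ M.card = m

variable {L : ι → Submodule F V} {m : ℕ}

lemma exists_max {α : Type*} [Fintype α] (P : α → Prop) (h : ∃ x, P x) (f : α → ℕ) :
    ∃ x, P x ∧ ∀ y, P y → f y ≤ f x := by
  classical
  obtain ⟨x0, hx0⟩ := h
  obtain ⟨x, hx, hmax⟩ := Finset.exists_max_image (Finset.univ.filter P) f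
    ⟨x0, by simpa using hx0⟩
  exact ⟨x, by simpa using hx, fun y hy => hmax y (by simpa using hy)⟩

lemma not_ind_insert (hs : Setup L m) {M : Finset ι} (hM : MM L m M) {f : ι} (hf : f ∉ M) :
    ¬ Ind L (insert f M) := by
  intro h
  have := hs.le _ h
  rw [Finset.card_insert_of_notMem hf, hM.2] at this
  omega

lemma exists_inter (hs : Setup L m) {M : Finset ι} (hM : MM L m M) (f : ι) :
    ∃ u ∈ L f, u ≠ 0 ∧ u ∈ S L M := by
  by_cases hf : f ∈ M
  · have h2 := hs.two f
    have : L f ≠ ⊥ := by
      intro h; rw [h, finrank_bot] at h2; omega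
    obtain ⟨u, hu, hu0⟩ := (Submodule.ne_bot_iff _).1 this
    exact ⟨u, hu, hu0, le_S hf hu⟩
  · have := not_ind_insert hs hM hf
    rw [ind_insert hf] at this
    have hnd : ¬ Disjoint (L f) (S L M) := fun h => this ⟨hM.1, h⟩
    rw [Submodule.disjoint_def] at hnd
    push Not at hnd
    obtain ⟨u, hu, huS, hu0⟩ := hnd
    exact ⟨u, hu, hu0, huS⟩

lemma disjoint_single {q : V} {T : Submodule F V} (h : q ∉ T) : Disjoint (span F {q}) T := by
  rw [Submodule.disjoint_def]
  intro x hx hxT
  obtain ⟨a, rfl⟩ := Submodule.mem_span_singleton.1 hx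
  by_cases ha : a = 0
  · simp [ha]
  · exfalso
    apply h
    have := T.smul_mem a⁻¹ hxT
    rwa [smul_smul, inv_mul_cancel₀ ha, one_smul] at this

lemma pair_disjoint {p q : V} {T : Submodule F V}
    (h : ∀ a b : F, a • p + b • q ∈ T → a = 0 ∧ b = 0) :
    Disjoint (span F {p, q}) T ∧ finrank F (span F {p, q} : Submodule F V) = 2 := by
  constructor
  · rw [Submodule.disjoint_def]
    intro x hx hxT
    obtain ⟨a, b, rfl⟩ := Submodule.mem_span_pair.1 hx
    obtain ⟨rfl, rfl⟩ := h a b hxT
    simp
  · have hli : LinearIndependent F ![p, q] := by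
      rw [LinearIndependent.pair_iff]
      intro s t hst
      exact h s t (by rw [hst]; exact T.zero_mem)
    have hfr : finrank F (span F (Set.range ![p, q])) = 2 := by
      rw [finrank_span_eq_card hli]; simp
    have : Set.range ![p, q] = {p, q} := by
      simp [Matrix.range_cons, Matrix.range_empty, Set.pair_comm]
    rwa [this] at hfr

lemma lemG (hs : Setup L m) {Q : Submodule F V} {X N : Finset ι} (hN : MM L m N)
    (hQ : Disjoint Q (S L N))
    (hmax : ∀ N', MM L m N' → Disjoint Q (S L N') → (N' ∩ X).card ≤ (N ∩ X).card)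
    {h : ι} (hh : h ∈ X) (hi : Ind L (insert h (N ∩ X))) : L h ≤ S L N ⊔ Q := by
  by_cases hhN : h ∈ N
  · exact (le_S hhN).trans le_sup_left
  intro x hx
  by_contra hxn
  have hxS : x ∉ S L N := fun h => hxn (Submodule.mem_sup_left h)
  obtain ⟨g, hg, hgD, hgi⟩ := EX hs.two hN.1 hhN hx hxS (not_ind_insert hs hN hhN)
    (Finset.inter_subset_left) hi
  have hgX : g ∉ X := fun hgX => hgD (Finset.mem_inter.2 ⟨hg, hgX⟩)
  have hhe : h ∉ N.erase g := fun h => hhN (Finset.mem_of_mem_erase h)
  have hN' : MM L m (insert h (N.erase g)) := by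
    refine ⟨hgi, ?_⟩
    rw [Finset.card_insert_of_notMem hhe, Finset.card_erase_of_mem hg, hN.2]
    have : 0 < N.card := Finset.card_pos.2 ⟨g, hg⟩
    rw [hN.2] at this
    omega
  obtain ⟨u, hu, hu0, huS⟩ := exists_inter hs hN h
  have hdis : Disjoint Q (S L (insert h (N.erase g))) := by
    rw [Submodule.disjoint_def]
    intro y hyQ hyS
    have hy2 : y ∈ L h ⊔ S L N := by
      rw [S_insert] at hyS
      have hle : L h ⊔ S L (N.erase g) ≤ L h ⊔ S L N :=
        sup_le le_sup_left ((S_mono (Finset.erase_subset _ _)).trans le_sup_right)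
      exact hle hyS
    obtain ⟨l, hl, s, hsS, rfl⟩ := Submodule.mem_sup.1 hy2
    obtain ⟨a, b, rfl⟩ := pair_gen (hs.two h) hx hu hxS huS hu0 hl
    have ha : a = 0 := by
      by_contra ha
      apply hxn
      have h1 : a • x ∈ S L N ⊔ Q := by
        have e1 : a • x = (a • x + b • u + s) - (b • u + s) := by abel
        rw [e1]
        exact Submodule.sub_mem _ (Submodule.mem_sup_right hyQ)
          (Submodule.mem_sup_left ((S L N).add_mem ((S L N).smul_mem b huS) hsS))
      have := (S L N ⊔ Q).smul_mem a⁻¹ h1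
      rwa [smul_smul, inv_mul_cancel₀ ha, one_smul] at this
    subst ha
    refine (Submodule.disjoint_def.1 hQ) _ hyQ ?_
    rw [zero_smul, zero_add]
    exact (S L N).add_mem ((S L N).smul_mem b huS) hsS
  have := hmax _ hN' hdis
  have h3 : insert h (N ∩ X) ⊆ insert h (N.erase g) ∩ X := by
    intro e he
    rcases Finset.mem_insert.1 he with rfl | he
    · exact Finset.mem_inter.2 ⟨Finset.mem_insert_self _ _, hh⟩
    · obtain ⟨he1, he2⟩ := Finset.mem_inter.1 he
      refine Finset.mem_inter.2 ⟨Finset.mem_insert_of_mem (Finset.mem_erase.2 ⟨?_, he1⟩), he2⟩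
      rintro rfl
      exact hgX he2
  have h4 := Finset.card_le_card h3
  rw [Finset.card_insert_of_notMem (fun h => hhN (Finset.mem_inter.1 h).1)] at h4
  omega

/-- `p` and `q` are never missed independently. -/
def Eqv (L : ι → Submodule F V) (m : ℕ) (p q : V) : Prop :=
  ∀ M, MM L m M → ∃ a b : F, (a ≠ 0 ∨ b ≠ 0) ∧ a • p + b • q ∈ S L M

lemma Eqv.symm {p q : V} (h : Eqv L m p q) : Eqv L m q p := by
  intro M hM
  obtain ⟨a, b, h1, h2⟩ := h M hM
  exact ⟨b, a, h1.symm, by rwa [add_comm]⟩

lemma not_eqv {p q : V} (h : ¬ Eqv L m p q) :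
    ∃ M, MM L m M ∧ ∀ a b : F, a • p + b • q ∈ S L M → a = 0 ∧ b = 0 := by
  unfold Eqv at h
  push Not at h
  obtain ⟨M, hM, h⟩ := h
  refine ⟨M, hM, fun a b hab => ?_⟩
  by_contra hcon
  refine h a b ?_ hab
  by_contra h2
  push Not at h2
  exact hcon h2

/-- all vectors of a plane are equivalent -/
lemma eqv_line (hs : Setup L m) {f : ι} {x y : V} (hx : x ∈ L f) (hy : y ∈ L f) :
    Eqv L m x y := by
  intro M hM
  obtain ⟨u, hu, hu0, huS⟩ := exists_inter hs hM f
  by_cases hxS : x ∈ S L M
  · exact ⟨1, 0, Or.inl one_ne_zero, by simpa using hxS⟩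
  · obtain ⟨a, b, rfl⟩ := pair_gen (hs.two f) hx hu hxS huS hu0 hy
    refine ⟨-a, 1, Or.inr one_ne_zero, ?_⟩
    have : -a • x + (1 : F) • (a • x + b • u) = b • u := by
      rw [one_smul, neg_smul]; abel
    rw [this]
    exact (S L M).smul_mem b huS

lemma mem_of_eqv {p q : V} {N : Finset ι} (hN : MM L m N) (h : Eqv L m p q) (hq : q ∉ S L N) :
    p ∈ S L N ⊔ span F {q} := by
  obtain ⟨a, b, h1, h2⟩ := h N hN
  have ha : a ≠ 0 := by
    rintro rfl
    have hb : b ≠ 0 := h1.resolve_left (by simp)
    apply hq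
    rw [zero_smul, zero_add] at h2
    have := (S L N).smul_mem b⁻¹ h2
    rwa [smul_smul, inv_mul_cancel₀ hb, one_smul] at this
  have e1 : p = a⁻¹ • ((a • p + b • q) - b • q) := by
    rw [add_sub_cancel_right, smul_smul, inv_mul_cancel₀ ha, one_smul]
  rw [e1]
  exact Submodule.smul_mem _ _ (Submodule.sub_mem _ (Submodule.mem_sup_left h2)
    (Submodule.mem_sup_right (Submodule.smul_mem _ _ (Submodule.mem_span_singleton_self q))))

lemma Eqv.trans (hs : Setup L m) {p q s : V} (hq : q ≠ 0) (h1 : Eqv L m p q) (h2 : Eqv L m q s) :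
    Eqv L m p s := by
  by_contra hcon
  obtain ⟨M, hM, hind⟩ := not_eqv hcon
  obtain ⟨hd, hfr⟩ := pair_disjoint hind
  obtain ⟨N, ⟨hN, hNq⟩, hmax⟩ := exists_max (fun N : Finset ι => MM L m N ∧ Disjoint (span F {q}) (S L N))
    (by
      obtain ⟨N, hN1, hN2, hN3⟩ := hs.gal q hq
      exact ⟨N, ⟨hN1, hN2⟩, disjoint_single hN3⟩) (fun N => (N ∩ M).card)
  have hqN : q ∉ S L N := fun h =>
    hq ((Submodule.disjoint_def.1 hNq) q (Submodule.mem_span_singleton_self q) h)
  have hle : S L M ⊔ span F {p, s} ≤ S L N ⊔ span F {q} := by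
    refine sup_le (S_le fun h hh => ?_) ?_
    · exact lemG hs hN hNq (fun N' a b => hmax N' ⟨a, b⟩) hh
        (hM.1.mono (Finset.insert_subset hh Finset.inter_subset_right))
    · rw [Submodule.span_le]
      rintro x (rfl | rfl)
      · exact mem_of_eqv hN h1 hqN
      · exact mem_of_eqv hN h2.symm hqN
  have h3 := Submodule.finrank_mono hle
  rw [finrank_sup_disjoint hd.symm, finrank_sup_disjoint hNq.symm, finrank_S hs.two hM.1,
    finrank_S hs.two hN.1, hfr, finrank_span_singleton hq, hM.2, hN.2] at h3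
  omega

/-- two relations: the double circuit lemma -/
lemma star (hs : Setup L m) {N : Finset ι} (hN : MM L m N) {f p : ι} {xf xp : V} (hxf : xf ∈ L f)
    (hxp : xp ∈ L p) (hind : ∀ a b : F, a • xf + b • xp ∈ S L N → a = 0 ∧ b = 0) {h : ι}
    (hh : h ∈ N) (hf : Ind L (insert f (N.erase h))) (hp : Ind L (insert p (N.erase h))) :
    False := by
  classical
  have hxfS : xf ∉ S L N := fun h1 => by
    have := (hind 1 0 (by simpa using h1)).1
    exact one_ne_zero this
  have hxpS : xp ∉ S L N := fun h1 => by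
    have := (hind 0 1 (by simpa using h1)).2
    exact one_ne_zero this
  have hfN : f ∉ N := fun h1 => hxfS (le_S h1 hxf)
  have hpN : p ∉ N := fun h1 => hxpS (le_S h1 hxp)
  obtain ⟨uf, huf, huf0, hufS⟩ := exists_inter hs hN f
  obtain ⟨up, hup, hup0, hupS⟩ := exists_inter hs hN p
  have hfp : f ≠ p := by
    rintro rfl
    obtain ⟨a, b, hab⟩ := pair_gen (hs.two f) hxf huf hxfS hufS huf0 hxp
    have : (-a) • xf + (1 : F) • xp ∈ S L N := by
      have e1 : (-a) • xf + (1 : F) • xp = b • uf := by
        rw [hab, one_smul, neg_smul]; abel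
      rw [e1]; exact (S L N).smul_mem b hufS
    exact one_ne_zero (hind _ _ this).2
  obtain ⟨wf, hwf, hwfs⟩ := mem_S.1 hufS
  obtain ⟨wp, hwp, hwps⟩ := mem_S.1 hupS
  set X : Finset ι := insert f (insert p N) with hX
  have hfX : f ∉ insert p N := by
    rw [Finset.mem_insert]; push Not; exact ⟨hfp, hfN⟩
  have hXcard : X.card = m + 2 := by
    rw [hX, Finset.card_insert_of_notMem hfX, Finset.card_insert_of_notMem hpN, hN.2]
  set R1 : ι → V := fun e => if e = f then - uf else if e ∈ N then wf e else 0 with hR1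
  set R2 : ι → V := fun e => if e = p then - up else if e ∈ N then wp e else 0 with hR2
  have sumX : ∀ g : ι → V, ∑ e ∈ X, g e = g f + (g p + ∑ e ∈ N, g e) := by
    intro g
    rw [hX, Finset.sum_insert hfX, Finset.sum_insert hpN]
  have R1f : R1 f = - uf := by simp [hR1]
  have R1p : R1 p = 0 := by simp [hR1, hfp.symm, hpN]
  have R2f : R2 f = 0 := by simp [hR2, hfp, hfN]
  have R2p : R2 p = - up := by simp [hR2]
  have R1N : ∀ e ∈ N, R1 e = wf e := by
    intro e he
    have : e ≠ f := fun h => hfN (h ▸ he)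
    simp [hR1, this, he]
  have R2N : ∀ e ∈ N, R2 e = wp e := by
    intro e he
    have : e ≠ p := fun h => hpN (h ▸ he)
    simp [hR2, this, he]
  have R1s : ∑ e ∈ X, R1 e = 0 := by
    rw [sumX, R1f, R1p, Finset.sum_congr rfl R1N, hwfs]; simp
  have R2s : ∑ e ∈ X, R2 e = 0 := by
    rw [sumX, R2f, R2p, Finset.sum_congr rfl R2N, hwps]; simp
  have memX : ∀ e ∈ X, e = f ∨ e = p ∨ e ∈ N := by
    intro e he
    simpa [hX] using he
  have R1L : ∀ e ∈ X, R1 e ∈ L e := by
    intro e he
    rcases memX e he with rfl | rfl | he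
    · rw [R1f]; exact (L _).neg_mem huf
    · rw [R1p]; exact (L _).zero_mem
    · rw [R1N e he]; exact hwf e he
  have R2L : ∀ e ∈ X, R2 e ∈ L e := by
    intro e he
    rcases memX e he with rfl | rfl | he
    · rw [R2f]; exact (L _).zero_mem
    · rw [R2p]; exact (L _).neg_mem hup
    · rw [R2N e he]; exact hwp e he
  -- every relation is a combination of `R1` and `R2`
  have hrel : ∀ w : ι → V, (∀ e ∈ X, w e ∈ L e) → ∑ e ∈ X, w e = 0 →
      ∃ a b : F, ∀ e ∈ X, w e = a • R1 e + b • R2 e := by
    intro w hw hws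
    have hfm : f ∈ X := by simp [hX]
    have hpm : p ∈ X := by simp [hX]
    have hNX : N ⊆ X := by intro e he; simp [hX, he]
    obtain ⟨a, a', ha⟩ := pair_gen (hs.two f) hxf huf hxfS hufS huf0 (hw f hfm)
    obtain ⟨b, b', hb⟩ := pair_gen (hs.two p) hxp hup hxpS hupS hup0 (hw p hpm)
    rw [sumX, ha, hb] at hws
    have hwN : ∑ e ∈ N, w e ∈ S L N := mem_S.2 ⟨w, fun e he => hw e (hNX he), rfl⟩
    have h1 : a • xf + b • xp ∈ S L N := by
      have e1 : a • xf + b • xp = -(a' • uf + b' • up + ∑ e ∈ N, w e) := by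
        rw [eq_neg_iff_add_eq_zero, ← hws]; abel
      rw [e1]
      exact (S L N).neg_mem ((S L N).add_mem ((S L N).add_mem ((S L N).smul_mem _ hufS)
        ((S L N).smul_mem _ hupS)) hwN)
    obtain ⟨ha0, hb0⟩ := hind a b h1
    subst ha0; subst hb0
    rw [zero_smul, zero_add] at ha hb
    rw [zero_smul, zero_add, zero_smul, zero_add] at hws
    refine ⟨-a', -b', ?_⟩
    have hN0 := hN.1 (fun e => w e - ((-a') • wf e + (-b') • wp e)) (fun e he =>
      (L e).sub_mem (hw e (hNX he)) ((L e).add_mem ((L e).smul_mem _ (hwf e he))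
        ((L e).smul_mem _ (hwp e he)))) (by
      rw [Finset.sum_sub_distrib, Finset.sum_add_distrib, ← Finset.smul_sum, ← Finset.smul_sum,
        hwfs, hwps, ← hws, neg_smul, neg_smul]
      abel)
    intro e he
    rcases memX e he with rfl | rfl | he
    · rw [R1f, R2f, ha]; simp
    · rw [R1p, R2p, hb]; simp
    · rw [R1N e he, R2N e he]
      exact sub_eq_zero.1 (hN0 e he)
  -- `R1 e` and `R2 e` are parallel
  have hpar : ∀ e ∈ X, R2 e ≠ 0 → ∃ c : F, R1 e = c • R2 e := by
    intro e he hR2e
    have hni : ¬ Ind L (X.erase e) := by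
      intro hi
      have := hs.le _ hi
      rw [Finset.card_erase_of_mem he, hXcard] at this
      omega
    unfold Ind at hni
    push Not at hni
    obtain ⟨w, hw, hws, i, hi, hwi⟩ := hni
    obtain ⟨a, b, hab⟩ := hrel (fun j => if j = e then 0 else w j) (fun j hj => by
      by_cases hje : j = e
      · simp [hje]
      · simpa [hje] using hw j (Finset.mem_erase.2 ⟨hje, hj⟩)) (by
      rw [← Finset.add_sum_erase X _ he]
      simp only [if_true, zero_add]
      rw [← hws]
      refine Finset.sum_congr rfl fun j hj => by simp [Finset.ne_of_mem_erase hj])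
    have h0 := hab e he
    simp only [if_true] at h0
    have h1 := hab i (Finset.mem_of_mem_erase hi)
    simp only [Finset.ne_of_mem_erase hi, if_false] at h1
    have ha : a ≠ 0 := by
      rintro rfl
      rw [zero_smul, zero_add] at h0 h1
      have hb : b = 0 := (smul_eq_zero.1 h0.symm).resolve_right hR2e
      rw [hb, zero_smul] at h1
      exact hwi h1
    refine ⟨-(a⁻¹ * b), ?_⟩
    have h2 : a • R1 e = -(b • R2 e) := eq_neg_of_add_eq_zero_left h0.symm
    have h3 : R1 e = a⁻¹ • (a • R1 e) := by rw [smul_smul, inv_mul_cancel₀ ha, one_smul]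
    rw [h3, h2, smul_neg, smul_smul, neg_smul]
  have hhX : h ∈ X := by simp [hX, hh]
  have hR1h : R1 h ≠ 0 := by
    rw [R1N h hh]; exact EX0' hfN huf huf0 hwf hwfs hf
  have hR2h : R2 h ≠ 0 := by
    rw [R2N h hh]; exact EX0' hpN hup hup0 hwp hwps hp
  set G : Finset ι := X.filter (fun e => R2 e = 0) with hG
  set q : V := ∑ e ∈ G, R1 e with hq
  have hq0 : q ≠ 0 := by
    intro hq0
    obtain ⟨a, b, hab⟩ := hrel (fun e => if R2 e = 0 then R1 e else 0) (fun e he => by
      by_cases h0 : R2 e = 0
      · simpa [h0] using R1L e he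
      · simp [h0]) (by rw [← Finset.sum_filter]; exact hq0)
    have hfm : f ∈ X := by simp [hX]
    have hpm : p ∈ X := by simp [hX]
    have e1 := hab p hpm
    have hR2p0 : R2 p ≠ 0 := by rw [R2p]; simpa using hup0
    rw [if_neg hR2p0, R1p, smul_zero, zero_add] at e1
    have hb : b = 0 := (smul_eq_zero.1 e1.symm).resolve_right hR2p0
    subst hb
    have e2 := hab f hfm
    rw [if_pos R2f, zero_smul, add_zero] at e2
    have e3 := hab h hhX
    rw [if_neg hR2h, zero_smul, add_zero] at e3
    have ha : a = 0 := (smul_eq_zero.1 e3.symm).resolve_right hR1h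
    rw [ha, zero_smul, R1f] at e2
    exact huf0 (neg_eq_zero.1 e2)
  -- property (Q)
  have hQ : ∀ D ⊆ X, ∀ h' ∈ X, h' ∉ D → Ind L D → ¬ Ind L (insert h' D) → q ∈ S L D := by
    intro D hD h' hh' hh'D hDi hDn
    unfold Ind at hDn
    push Not at hDn
    obtain ⟨w, hw, hws, i, hi, hwi⟩ := hDn
    have hwh' : w h' ≠ 0 := by
      intro h0
      rw [Finset.sum_insert hh'D, h0, zero_add] at hws
      rcases Finset.mem_insert.1 hi with rfl | hi
      · exact hwi h0
      · exact hwi (hDi w (fun e he => hw e (Finset.mem_insert_of_mem he)) hws i hi)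
    have hsub : insert h' D ⊆ X := Finset.insert_subset hh' hD
    set w' : ι → V := fun e => if e ∈ insert h' D then w e else 0 with hw'
    have hw's : ∑ e ∈ X, w' e = 0 := by
      rw [← Finset.sum_subset hsub (fun e _ he => by simp only [hw', if_neg he]), ← hws]
      exact Finset.sum_congr rfl fun e he => by simp only [hw', if_pos he]
    have hw'L : ∀ e ∈ X, w' e ∈ L e := by
      intro e he
      by_cases h0 : e ∈ insert h' D
      · simp only [hw', if_pos h0]; exact hw e h0
      · simp only [hw', if_neg h0]; exact (L e).zero_mem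
    obtain ⟨a, b, hab⟩ := hrel w' hw'L hw's
    -- values of `w'` outside `h'` lie in `S L D`
    have hmem : ∀ e, e ≠ h' → w' e ∈ S L D := by
      intro e he
      by_cases h0 : e ∈ insert h' D
      · have heD : e ∈ D := (Finset.mem_insert.1 h0).resolve_left he
        simp only [hw', if_pos h0]
        exact le_S heD (hw e h0)
      · simp only [hw', if_neg h0]; exact (S L D).zero_mem
    have hw'h' : w' h' ∈ S L D := by
      have : w' h' = - ∑ e ∈ X.erase h', w' e := by
        rw [eq_neg_iff_add_eq_zero, Finset.add_sum_erase X _ hh', hw's]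
      rw [this]
      exact (S L D).neg_mem (Submodule.sum_mem _ fun e he => hmem e (Finset.ne_of_mem_erase he))
    have hall : ∀ e, w' e ∈ S L D := by
      intro e
      by_cases he : e = h'
      · rw [he]; exact hw'h'
      · exact hmem e he
    by_cases ha : a = 0
    · subst ha
      have hb : b ≠ 0 := by
        rintro rfl
        have := hab h' hh'
        simp only [zero_smul, add_zero, hw', Finset.mem_insert_self, if_true] at this
        exact hwh' this
      have e1 : q = - ∑ e ∈ X.filter (fun e => ¬ R2 e = 0), R1 e := by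
        rw [eq_neg_iff_add_eq_zero, hq, hG, Finset.sum_filter_add_sum_filter_not, R1s]
      rw [e1]
      refine (S L D).neg_mem (Submodule.sum_mem _ fun e he => ?_)
      obtain ⟨heX, heR⟩ := Finset.mem_filter.1 he
      obtain ⟨c, hc⟩ := hpar e heX heR
      rw [hc]
      have := hab e heX
      rw [zero_smul, zero_add] at this
      have h5 : R2 e = b⁻¹ • w' e := by rw [this, smul_smul, inv_mul_cancel₀ hb, one_smul]
      rw [h5]
      exact (S L D).smul_mem _ ((S L D).smul_mem _ (hall e))
    · have e1 : q = a⁻¹ • ∑ e ∈ G, w' e := by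
        rw [hq, Finset.smul_sum]
        refine Finset.sum_congr rfl fun e he => ?_
        obtain ⟨heX, heR⟩ := Finset.mem_filter.1 he
        rw [hab e heX, heR, smul_zero, add_zero, smul_smul, inv_mul_cancel₀ ha, one_smul]
      rw [e1]
      exact (S L D).smul_mem _ (Submodule.sum_mem _ fun e _ => hall e)
  obtain ⟨N', ⟨hN', hNq⟩, hmax⟩ := exists_max
    (fun N : Finset ι => MM L m N ∧ Disjoint (span F {q}) (S L N))
    (by
      obtain ⟨N, hN1, hN2, hN3⟩ := hs.gal q hq0
      exact ⟨N, ⟨hN1, hN2⟩, disjoint_single hN3⟩) (fun N => (N ∩ X).card)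
  have hqN : q ∉ S L N' := fun h =>
    hq0 ((Submodule.disjoint_def.1 hNq) q (Submodule.mem_span_singleton_self q) h)
  obtain ⟨hd, hfr⟩ := pair_disjoint hind
  have hle : S L N ⊔ span F {xf, xp} ≤ S L N' ⊔ span F {q} := by
    have hX' : S L X ≤ S L N' ⊔ span F {q} := by
      refine S_le fun h' hh' => ?_
      by_cases hi : Ind L (insert h' (N' ∩ X))
      · exact lemG hs hN' hNq (fun N' a b => hmax N' ⟨a, b⟩) hh' hi
      · exfalso
        have hh'N : h' ∉ N' ∩ X := by
          intro hmem
          rw [Finset.insert_eq_of_mem hmem] at hi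
          exact hi (hN'.1.mono Finset.inter_subset_left)
        exact hqN (S_mono Finset.inter_subset_left (hQ (N' ∩ X) Finset.inter_subset_right h' hh'
          hh'N (hN'.1.mono Finset.inter_subset_left) hi))
    refine sup_le ((S_mono (by intro e he; simp [hX, he])).trans hX') ?_
    refine le_trans ?_ hX'
    rw [Submodule.span_le]
    rintro x (rfl | rfl)
    · exact le_S (by simp [hX]) hxf
    · exact le_S (by simp [hX]) hxp
  have h3 := Submodule.finrank_mono hle
  rw [finrank_sup_disjoint hd.symm, finrank_sup_disjoint hNq.symm, finrank_S hs.two hN.1,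
    finrank_S hs.two hN'.1, hfr, finrank_span_singleton hq0, hN.2, hN'.2] at h3
  omega

end Pool.Agent.V11300.DR
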